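import Mathlib

/-!
The number of curves `y^2 = x^3 + A x + B`, `|A| ≤ H^2`, `|B| ≤ H^3`, with an integral point with `|x| ≤ H^11`.
-/

set_option autoImplicit false

namespace HT55

/-- The box for the coefficients of the reduced forms. -/
def Box (H lam : ℝ) (a b c d e : ℤ) : Prop :=
  a ≠ 0 ∧ |(a : ℝ)| ≤ 5152 * H * lam ^ 4 ∧ |(b : ℝ)| ≤ 5152 * H * lam ^ 2 ∧
    |(c : ℝ)| ≤ 5152 * H ∧ |(d : ℝ)| * lam ^ 2 ≤ 5152 * H ∧ |(e : ℝ)| * lam ^ 4 ≤ 5152 * H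

/-- The form represents `1` at a primitive vector of norm about `κ`. -/
def Rep (κ lam : ℝ) (a b c d e : ℤ) : Prop :=
  ∃ P Q : ℤ, Q ≠ 0 ∧ IsCoprime P Q ∧ |(Q : ℝ)| ≤ lam * κ ∧ |(P : ℝ)| * lam ≤ 2 * κ ∧
    κ * lam ≤ |(P : ℝ)| * lam ^ 2 + 2 * |(Q : ℝ)| ∧
    a * P ^ 4 + 4 * b * P ^ 3 * Q + 6 * c * P ^ 2 * Q ^ 2 + 4 * d * P * Q ^ 3 + e * Q ^ 4 = 1

end HT55
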