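import Pool.Agent.LibHT55.L2

/-!
The number of elliptic curves `y^2 = x^3 + A x + B`, `|A| ≤ H^2`, `|B| ≤ H^3`, which have an integral point with `|x| ≤ X`:
`≥ c H^(9/2)` for `X ≥ H` and `≤ K (H^(9/2) + √X/H (1 + log H))` for every `X`.
-/

set_option autoImplicit false

namespace HT55

theorem rpow_nine_half (H : ℝ) (hH : 0 < H) : H ^ (9 / 2 : ℝ) = H ^ 4 * √H := by
  rw [Real.sqrt_eq_rpow, ← Real.rpow_natCast, ← Real.rpow_add hH]
  norm_num

/-- lower bound, for every `X ≥ H` -/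
theorem low : ∃ c : ℝ, 0 < c ∧ ∀ H X : ℝ, 1 ≤ H → H ≤ X →
    c * H ^ (9 / 2 : ℝ) ≤ ((Exc H X).ncard : ℝ) := by
  obtain ⟨c, hc, h⟩ := exc_ge
  refine ⟨c, hc, fun H X hH hX => ?_⟩
  rw [rpow_nine_half H (by linarith)]
  exact h H X hH hX

/-- upper bound, for every `X` -/
theorem up_gen : ∃ K : ℝ, ∀ H X : ℝ, 1 ≤ H → 0 ≤ X →
    ((Exc H X).ncard : ℝ) ≤ K * (H ^ (9 / 2 : ℝ) + √X / H * (1 + Real.log H)) := by
  obtain ⟨K, h⟩ := exc_le
  refine ⟨K, fun H X hH hX => ?_⟩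
  rw [rpow_nine_half H (by linarith)]
  exact h H X hH hX

/-- upper bound, `X = H^11` -/
theorem up : ∃ K : ℝ, ∀ H : ℝ, 1 ≤ H →
    ((Exc H (H ^ 11)).ncard : ℝ) ≤ K * (H ^ (9 / 2 : ℝ) * (1 + Real.log H)) := by
  obtain ⟨K, h⟩ := exc_le
  refine ⟨2 * |K|, fun H hH => ?_⟩
  have hH0 : 0 < H := by linarith
  have hl : 0 ≤ Real.log H := Real.log_nonneg hH
  have h1 := h H (H ^ 11) hH (by positivity)
  have h2 : √(H ^ 11) / H = H ^ 4 * √H := by
    have : H ^ 11 = (H ^ 5) ^ 2 * H := by ring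
    rw [this, Real.sqrt_mul (by positivity), Real.sqrt_sq (by positivity)]
    field_simp
  rw [h2] at h1
  rw [rpow_nine_half H hH0]
  have h3 : 0 ≤ H ^ 4 * √H := by positivity
  have h4 : H ^ 4 * √H ≤ H ^ 4 * √H * (1 + Real.log H) :=
    le_mul_of_one_le_right h3 (by linarith)
  calc ((Exc H (H ^ 11)).ncard : ℝ) ≤ K * (H ^ 4 * √H + H ^ 4 * √H * (1 + Real.log H)) := h1
    _ ≤ |K| * (H ^ 4 * √H + H ^ 4 * √H * (1 + Real.log H)) :=
        mul_le_mul_of_nonneg_right (le_abs_self K) (by positivity)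
    _ ≤ |K| * (2 * (H ^ 4 * √H * (1 + Real.log H))) :=
        mul_le_mul_of_nonneg_left (by linarith) (abs_nonneg K)
    _ = 2 * |K| * (H ^ 4 * √H * (1 + Real.log H)) := by ring

/-- the exact order `H^(9/2)`, uniformly for `H ≤ X ≤ H^11/(1 + log H)^2` -/
theorem order : ∃ c K : ℝ, 0 < c ∧ ∀ H X : ℝ, 1 ≤ H → H ≤ X → X * (1 + Real.log H) ^ 2 ≤ H ^ 11 →
    c * H ^ (9 / 2 : ℝ) ≤ ((Exc H X).ncard : ℝ) ∧
      ((Exc H X).ncard : ℝ) ≤ K * H ^ (9 / 2 : ℝ) := by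
  obtain ⟨c, hc, hlow⟩ := low
  obtain ⟨K, h⟩ := exc_le
  refine ⟨c, 2 * |K|, hc, fun H X hH hX hX2 => ⟨hlow H X hH hX, ?_⟩⟩
  have hH0 : 0 < H := by linarith
  have hl : 0 ≤ Real.log H := Real.log_nonneg hH
  have h1 := h H X hH (by linarith)
  rw [rpow_nine_half H hH0]
  have h2 : √X / H * (1 + Real.log H) ≤ H ^ 4 * √H := by
    rw [div_mul_eq_mul_div, div_le_iff₀ hH0]
    have h3 : √X * (1 + Real.log H) = √(X * (1 + Real.log H) ^ 2) := by
      rw [Real.sqrt_mul (by linarith), Real.sqrt_sq (by linarith)]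
    rw [h3]
    calc √(X * (1 + Real.log H) ^ 2) ≤ √(H ^ 11) := Real.sqrt_le_sqrt hX2
      _ = H ^ 4 * √H * H := by
        have : H ^ 11 = (H ^ 5) ^ 2 * H := by ring
        rw [this, Real.sqrt_mul (by positivity), Real.sqrt_sq (by positivity)]
        ring
  have h3 : 0 ≤ H ^ 4 * √H := by positivity
  have h5 : 0 ≤ √X / H * (1 + Real.log H) := by positivity
  calc ((Exc H X).ncard : ℝ) ≤ K * (H ^ 4 * √H + √X / H * (1 + Real.log H)) := h1
    _ ≤ |K| * (H ^ 4 * √H + √X / H * (1 + Real.log H)) :=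
        mul_le_mul_of_nonneg_right (le_abs_self K) (by positivity)
    _ ≤ |K| * (2 * (H ^ 4 * √H)) :=
        mul_le_mul_of_nonneg_left (by linarith) (abs_nonneg K)
    _ = 2 * |K| * (H ^ 4 * √H) := by ring

end HT55
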