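import Pool.Agent.LibHLP.DivBound

set_option autoImplicit false

open Finset Filter

namespace HT55

/-- the values `y^2 - x^3 - A x`, `1 ≤ x`, `2 x ≤ H`, `1 ≤ y`, `16 y^2 ≤ H^3` -/
def Val (H : ℕ) (A : ℤ) : Set ℤ :=
  {B | ∃ x y : ℤ, 1 ≤ x ∧ 2 * x ≤ H ∧ 1 ≤ y ∧ 16 * y ^ 2 ≤ (H : ℤ) ^ 3 ∧ B = y ^ 2 - x ^ 3 - A * x}

theorem val_finite (H : ℕ) (A : ℤ) : (Val H A).Finite := by
  refine ((Finset.Icc (1 : ℤ) H ×ˢ Finset.Icc (1 : ℤ) (H ^ 3)).image
    (fun t : ℤ × ℤ => t.2 ^ 2 - t.1 ^ 3 - A * t.1)).finite_toSet.subset ?_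
  rintro e ⟨x, y, hx, hx2, hy, hy2, rfl⟩
  rw [Finset.mem_coe, Finset.mem_image]
  refine ⟨(x, y), ?_, rfl⟩
  rw [Finset.mem_product, Finset.mem_Icc, Finset.mem_Icc]
  refine ⟨⟨hx, by show x ≤ (H : ℤ); omega⟩, hy, ?_⟩
  show y ≤ (H : ℤ) ^ 3
  nlinarith

/-- the values for one `x` -/
private def L1E (V : ℕ) (A : ℤ) (x : ℕ) : Finset ℤ :=
  (Finset.Icc 1 V).image (fun v : ℕ => (v : ℤ) ^ 2 - (x : ℤ) ^ 3 - A * (x : ℤ))

private theorem L1E_card (V : ℕ) (A : ℤ) (x : ℕ) : (L1E V A x).card = V := by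
  unfold L1E
  rw [Finset.card_image_of_injective, Nat.card_Icc]
  · omega
  · intro v v' h
    have h1 : (v : ℤ) ^ 2 = (v' : ℤ) ^ 2 := by
      simp only at h
      linarith
    have h2 : (v : ℤ) = v' := by
      have := sq_eq_sq_iff_eq_or_eq_neg.1 h1
      rcases this with h | h <;> omega
    exact_mod_cast h2

/-- Common values come from the divisors of one number. -/
private theorem L1E_inter {V : ℕ} {A : ℤ} {x x' : ℕ} (hA : 1 ≤ A) (hx : x < x') :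
    ((L1E V A x ∩ L1E V A x').card : ℕ) ≤
      ((((x' : ℤ) - x) * ((x' : ℤ) ^ 2 + x * x' + (x : ℤ) ^ 2 + A)).natAbs.divisors).card := by
  set N : ℤ := ((x' : ℤ) - x) * ((x' : ℤ) ^ 2 + x * x' + (x : ℤ) ^ 2 + A) with hN
  have hx' : (x : ℤ) < x' := by exact_mod_cast hx
  have hx0 : (0 : ℤ) ≤ x := by positivity
  have hN0 : 0 < N := by
    apply mul_pos
    · linarith
    · positivity
  have hdat : ∀ e ∈ L1E V A x ∩ L1E V A x', ∃ v v' : ℕ, 1 ≤ v ∧ 1 ≤ v' ∧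
      e = (v : ℤ) ^ 2 - (x : ℤ) ^ 3 - A * (x : ℤ) ∧ (v' : ℤ) ^ 2 - (v : ℤ) ^ 2 = N := by
    intro e he
    obtain ⟨h1, h2⟩ := Finset.mem_inter.1 he
    unfold L1E at h1 h2
    obtain ⟨v, hv, h3⟩ := Finset.mem_image.1 h1
    obtain ⟨v', hv', h4⟩ := Finset.mem_image.1 h2
    refine ⟨v, v', (Finset.mem_Icc.1 hv).1, (Finset.mem_Icc.1 hv').1, h3.symm, ?_⟩
    rw [← h4] at h3
    rw [hN]
    linear_combination -h3
  choose! v v' hv hv' he hvN using hdat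
  refine Finset.card_le_card_of_injOn (fun e => v e + v' e) ?_ ?_
  · intro e hee
    have h1 := hvN e hee
    rw [Finset.mem_coe, Nat.mem_divisors]
    refine ⟨?_, by rw [Int.natAbs_ne_zero]; exact hN0.ne'⟩
    rw [← Int.natCast_dvd]
    refine ⟨(v' e : ℤ) - v e, ?_⟩
    rw [← h1]
    push_cast
    ring
  · intro e hee e' hee' h
    have h1 := hvN e hee
    have h2 := hvN e' hee'
    have h3 : (v e : ℤ) + v' e = (v e' : ℤ) + v' e' := by
      simp only at h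
      exact_mod_cast h
    have h4 : 0 < (v e : ℤ) + v' e := by
      have := hv e hee
      omega
    have h5 : ((v e : ℤ) + v' e) * ((v' e : ℤ) - v e) = ((v e : ℤ) + v' e) * ((v' e' : ℤ) - v e') := by
      have h6 : ((v e : ℤ) + v' e) * ((v' e : ℤ) - v e) = N := by rw [← h1]; ring
      have h7 : ((v e : ℤ) + v' e) * ((v' e' : ℤ) - v e') = N := by rw [h3, ← h2]; ring
      rw [h6, h7]
    have h8 := mul_left_cancel₀ h4.ne' h5
    have h9 : (v e : ℤ) = v e' := by linarith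
    rw [he e hee, he e' hee', h9]

/-- The union of `U` sets with `V` elements and small intersections. -/
private theorem L1_union {V D : ℕ} (E : ℕ → Finset ℤ) (hE : ∀ u, (E u).card = V) (U : ℕ)
    (hI : ∀ u u', 1 ≤ u → u < u' → u' ≤ U → (E u ∩ E u').card ≤ D) :
    U * V ≤ ((Finset.Icc 1 U).biUnion E).card + U ^ 2 * D := by
  induction U with
  | zero => simp
  | succ n ih =>
    have h1 := ih fun u u' h1 h2 h3 => hI u u' h1 h2 (h3.trans (Nat.le_succ n))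
    have h2 : (Finset.Icc 1 (n + 1)).biUnion E = (Finset.Icc 1 n).biUnion E ∪ E (n + 1) := by
      rw [← Finset.insert_Icc_right_eq_Icc_add_one (by omega), Finset.biUnion_insert,
        Finset.union_comm]
    have h3 : ((Finset.Icc 1 n).biUnion E ∩ E (n + 1)).card ≤ n * D := by
      rw [Finset.biUnion_inter]
      refine Finset.card_biUnion_le.trans ?_
      calc ∑ u ∈ Finset.Icc 1 n, (E u ∩ E (n + 1)).card ≤ ∑ u ∈ Finset.Icc 1 n, D := by
            refine Finset.sum_le_sum fun u hu => ?_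
            obtain ⟨h4, h5⟩ := Finset.mem_Icc.1 hu
            exact hI u (n + 1) h4 (by omega) le_rfl
        _ = n * D := by simp
    have h4 := Finset.card_union_add_card_inter ((Finset.Icc 1 n).biUnion E) (E (n + 1))
    rw [h2]
    rw [hE] at h4
    nlinarith

private theorem L1_arith {C : ℝ} (hC : 1 ≤ C) : ∃ H₀ : ℕ, ∀ (H : ℕ) (U V D : ℕ) (Z : ℝ), H₀ ≤ H →
    U = H / 2 → V = Nat.sqrt (H ^ 3 / 16) → (D : ℝ) ≤ C * ((H : ℝ) ^ 3) ^ (1 / 12 : ℝ) →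
    (U : ℝ) * V ≤ Z + (U : ℝ) ^ 2 * D → 1 / 30 * ((H : ℝ) ^ 2 * √(H : ℝ)) ≤ Z := by
  have h0 : Tendsto (fun H : ℕ => (H : ℝ) ^ (1 / 4 : ℝ)) atTop atTop :=
    (tendsto_rpow_atTop (by norm_num)).comp tendsto_natCast_atTop_atTop
  obtain ⟨H₁, hH₁⟩ := eventually_atTop.1 (h0.eventually_ge_atTop (40 * C))
  refine ⟨max H₁ 10000, fun H U V D Z hH hU hV hD hZ => ?_⟩
  have hHb : 10000 ≤ H := (le_max_right _ _).trans hH
  have h1 := hH₁ H ((le_max_left _ _).trans hH)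
  have hH' : (10000 : ℝ) ≤ H := by exact_mod_cast hHb
  have hH0 : (0 : ℝ) < H := by linarith
  set s : ℝ := √(H : ℝ) with hs
  have hs2 : s * s = H := Real.mul_self_sqrt hH0.le
  have hs100 : 100 ≤ s := by
    rw [hs]
    apply Real.le_sqrt_of_sq_le
    linarith
  have hU1 : (U : ℝ) ≤ H / 2 := by
    have h2 : 2 * U ≤ H := by omega
    have h3 : 2 * (U : ℝ) ≤ H := by exact_mod_cast h2
    linarith
  have hU2 : (H : ℝ) / 3 ≤ U := by
    have h2 : H ≤ 3 * U := by omega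
    have h3 : (H : ℝ) ≤ 3 * U := by exact_mod_cast h2
    linarith
  have hV2 : (H : ℝ) * s / 5 ≤ V := by
    have h2 : H ^ 3 / 16 < (V + 1) * (V + 1) := by
      rw [hV]
      exact Nat.lt_succ_sqrt _
    have h3 : H ^ 3 < 16 * ((V + 1) * (V + 1)) := by omega
    have h4 : (H : ℝ) ^ 3 < 16 * (((V : ℝ) + 1) * ((V : ℝ) + 1)) := by exact_mod_cast h3
    have hV0 : (0 : ℝ) ≤ V := Nat.cast_nonneg _
    have h5 : ((H : ℝ) * s) * ((H : ℝ) * s) = (H : ℝ) ^ 3 := by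
      calc ((H : ℝ) * s) * ((H : ℝ) * s) = H ^ 2 * (s * s) := by ring
        _ = (H : ℝ) ^ 3 := by rw [hs2]; ring
    have h6 : (1000000 : ℝ) ≤ H * s := by nlinarith
    by_contra h7
    push Not at h7
    have h8 : (V : ℝ) + 1 ≤ (H : ℝ) * s / 4 := by linarith
    have h9 : ((V : ℝ) + 1) * ((V : ℝ) + 1) ≤ ((H : ℝ) * s / 4) * ((H : ℝ) * s / 4) :=
      mul_le_mul h8 h8 (by linarith) (by linarith)
    nlinarith
  have hUV : 1 / 15 * ((H : ℝ) ^ 2 * s) ≤ (U : ℝ) * V := by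
    calc 1 / 15 * ((H : ℝ) ^ 2 * s) = (H : ℝ) / 3 * (H * s / 5) := by ring
      _ ≤ U * V := by gcongr
  -- the error
  set q : ℝ := (H : ℝ) ^ (1 / 4 : ℝ) with hq
  have hq0 : 0 < q := by positivity
  have hqq : q * q = s := by
    rw [hq, ← Real.rpow_add hH0, hs, Real.sqrt_eq_rpow]
    norm_num
  have hD' : (D : ℝ) ≤ C * q := by
    refine hD.trans (le_of_eq ?_)
    rw [hq, ← Real.rpow_natCast, ← Real.rpow_mul hH0.le]
    norm_num
  have hUD : (U : ℝ) ^ 2 * D ≤ 1 / 30 * ((H : ℝ) ^ 2 * s) := by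
    have hU0 : (0 : ℝ) ≤ U := Nat.cast_nonneg _
    have h2 : (U : ℝ) ^ 2 ≤ (H : ℝ) ^ 2 / 4 := by
      calc (U : ℝ) ^ 2 ≤ (H / 2) ^ 2 := pow_le_pow_left₀ hU0 hU1 _
        _ = (H : ℝ) ^ 2 / 4 := by ring
    have h3 : 40 * (C * q) ≤ s := by
      rw [← hqq]
      nlinarith
    have h5 : 0 ≤ (H : ℝ) ^ 2 * s := by positivity
    calc (U : ℝ) ^ 2 * D ≤ (H : ℝ) ^ 2 / 4 * (C * q) := by gcongr
      _ ≤ (H : ℝ) ^ 2 / 4 * (s / 40) := by
        have : C * q ≤ s / 40 := by linarith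
        gcongr
      _ ≤ 1 / 30 * ((H : ℝ) ^ 2 * s) := by linarith
  linarith

theorem val_card : ∃ H₀ : ℕ, ∀ (H : ℕ) (A : ℤ), H₀ ≤ H → 1 ≤ A → 4 * A ≤ (H : ℤ) ^ 2 →
    1 / 30 * ((H : ℝ) ^ 2 * √(H : ℝ)) ≤ ((Val H A).ncard : ℝ) := by
  obtain ⟨C, hC, hdiv⟩ := Pool.Agent.LibHLP.exists_card_divisors_le (1 / 12) (by norm_num)
  obtain ⟨H₀, hH₀⟩ := L1_arith hC
  refine ⟨H₀, fun H A hH hA hA2 => ?_⟩
  set U := H / 2 with hU
  set V := Nat.sqrt (H ^ 3 / 16) with hV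
  set D : ℕ := ⌊C * ((H : ℝ) ^ 3) ^ (1 / 12 : ℝ)⌋₊ with hD
  have hI : ∀ u u', 1 ≤ u → u < u' → u' ≤ U → (L1E V A u ∩ L1E V A u').card ≤ D := by
    intro u u' h1 h2 h3
    rw [hD]
    apply Nat.le_floor
    refine le_trans (Nat.cast_le.2 (L1E_inter hA h2)) ?_
    set N : ℤ := ((u' : ℤ) - u) * ((u' : ℤ) ^ 2 + u * u' + (u : ℤ) ^ 2 + A) with hN
    have hu' : (u : ℤ) < u' := by exact_mod_cast h2
    have hu0 : (1 : ℤ) ≤ u := by exact_mod_cast h1
    have hN0 : 0 < N := by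
      apply mul_pos
      · linarith
      · positivity
    have hNH : N ≤ (H : ℤ) ^ 3 := by
      have h4 : 2 * (u' : ℤ) ≤ H := by
        have : 2 * u' ≤ H := by omega
        exact_mod_cast this
      have h5 : 4 * ((u' : ℤ) ^ 2 + u * u' + (u : ℤ) ^ 2 + A) ≤ 4 * (H : ℤ) ^ 2 := by nlinarith
      have h6 : 0 ≤ ((u' : ℤ) ^ 2 + u * u' + (u : ℤ) ^ 2 + A) := by positivity
      have h7 : (u' : ℤ) - u ≤ H := by linarith
      calc N ≤ H * ((u' : ℤ) ^ 2 + u * u' + (u : ℤ) ^ 2 + A) := mul_le_mul_of_nonneg_right h7 h6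
        _ ≤ H * (H : ℤ) ^ 2 := mul_le_mul_of_nonneg_left (by linarith) (by positivity)
        _ = (H : ℤ) ^ 3 := by ring
    have hNa : N.natAbs ≠ 0 := Int.natAbs_ne_zero.2 hN0.ne'
    refine (hdiv N.natAbs hNa).trans ?_
    apply mul_le_mul_of_nonneg_left _ (by linarith)
    apply Real.rpow_le_rpow (Nat.cast_nonneg _) _ (by norm_num)
    have h7 : ((N.natAbs : ℕ) : ℤ) ≤ (H : ℤ) ^ 3 := by
      rw [Int.natCast_natAbs, abs_of_pos hN0]
      exact hNH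
    exact_mod_cast h7
  have hmain := L1_union (L1E V A) (L1E_card V A) U hI
  have hsub : (((Finset.Icc 1 U).biUnion (L1E V A) : Finset ℤ) : Set ℤ) ⊆ Val H A := by
    intro e he
    rw [Finset.mem_coe, Finset.mem_biUnion] at he
    obtain ⟨u, hu, he⟩ := he
    obtain ⟨hu1, hu2⟩ := Finset.mem_Icc.1 hu
    unfold L1E at he
    obtain ⟨v, hv, rfl⟩ := Finset.mem_image.1 he
    obtain ⟨hv1, hv2⟩ := Finset.mem_Icc.1 hv
    refine ⟨u, v, by exact_mod_cast hu1, ?_, by exact_mod_cast hv1, ?_, rfl⟩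
    · have h1 : 2 * u ≤ H := by omega
      exact_mod_cast h1
    · have h1 : V * V ≤ H ^ 3 / 16 := Nat.sqrt_le _
      have h2 : 16 * (V * V) ≤ H ^ 3 := by omega
      have h3 : 16 * v ^ 2 ≤ H ^ 3 := by nlinarith
      exact_mod_cast h3
  have hcard : ((Finset.Icc 1 U).biUnion (L1E V A)).card ≤ (Val H A).ncard := by
    rw [← Set.ncard_coe_finset]
    exact Set.ncard_le_ncard hsub (val_finite H A)
  refine hH₀ H U V D _ hH hU hV (Nat.floor_le (by positivity)) ?_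
  have h1 : U * V ≤ (Val H A).ncard + U ^ 2 * D := by omega
  exact_mod_cast h1

end HT55
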