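import Pool.Agent.LibHT55.Defs
import Pool.Agent.LibHLP.Basis
import Pool.Agent.LibHLP.T4Bound
import Pool.Agent.LibHLP.Inv
import Pool.Agent.LibHLP.NoRoot

set_option autoImplicit false

open Pool.Agent.LibHLP

namespace HT55

/-- From an integral point to a reduced form which represents `1`. -/
theorem reduction' (x y A B : ℤ) (H : ℝ) (hH : 1 ≤ H) (hx : 16 * H ^ 4 < (x : ℝ)) (hy : 0 ≤ y)
    (hA : |(A : ℝ)| ≤ H ^ 2) (hB : |(B : ℝ)| ≤ H ^ 3) (hd : 4 * A ^ 3 + 27 * B ^ 2 ≠ 0)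
    (hE : y ^ 2 = x ^ 3 + A * x + B) :
    ∃ (lam κ : ℝ) (a b c d e : ℤ), 0 < lam ∧ lam ≤ 1 ∧ 1 < κ ∧ κ ^ 2 * H = 4 * √(x : ℝ) ∧
      Box H lam a b c d e ∧ Rep κ lam a b c d e ∧
      a * e - 4 * b * d + 3 * c ^ 2 = -4 * A ∧
      a * c * e + 2 * b * c * d - a * d ^ 2 - b ^ 2 * e - c ^ 3 = -4 * B := by
  have hH0 : 0 < H := by linarith
  have hx0 : (0 : ℝ) < x := lt_of_le_of_lt (by positivity) hx
  have hx16 : (16 : ℝ) < x := by
    have : (1 : ℝ) ≤ H ^ 4 := one_le_pow₀ hH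
    linarith
  set s : ℝ := √(x : ℝ) with hs
  have hs0 : 0 < s := Real.sqrt_pos.2 hx0
  have hsx : s ^ 2 = (x : ℝ) := Real.sq_sqrt hx0.le
  have hs4 : 4 * H ^ 2 < s := by
    have h1 : (4 * H ^ 2) ^ 2 < s ^ 2 := by rw [hsx]; linarith [mul_pow 4 (H ^ 2) 2, hx]; 
    exact lt_of_pow_lt_pow_left₀ 2 hs0.le h1
  set κ : ℝ := √(4 * s / H) with hκdef
  have hκsq : κ ^ 2 = 4 * s / H := Real.sq_sqrt (by positivity)
  have hκs : κ ^ 2 * H = 4 * s := by rw [hκsq]; field_simp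
  have hκ0 : 0 ≤ κ := Real.sqrt_nonneg _
  have hHsq : H ≤ H ^ 2 := by nlinarith
  have hκ : 1 < κ := by
    have h1 : (1 : ℝ) ^ 2 < κ ^ 2 := by
      rw [hκsq, lt_div_iff₀ hH0]
      nlinarith
    exact lt_of_pow_lt_pow_left₀ 2 hκ0 h1
  obtain ⟨p1, q1, p2, q2, lam, hl0, hl1, hq1, hdet, hu1, hw1, hu2, hw2⟩ := exists_basis s κ hκ
  have hl0' : 0 ≤ lam := hl0.le
  have hκpos : 0 < κ := by linarith
  have hq1R : (0 : ℝ) < q1 := by exact_mod_cast hq1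
  -- the bounds for the two vectors
  have b1 : |(((p1, q1) : ℤ × ℤ).1 : ℝ) - s * ((p1, q1) : ℤ × ℤ).2| * κ ≤ lam := hu1
  have b1' : |(((p1, q1) : ℤ × ℤ).2 : ℝ)| ≤ lam * κ := by
    show |(q1 : ℝ)| ≤ lam * κ
    rw [abs_of_pos hq1R]
    exact hw1
  have b2 : |(((p2, q2) : ℤ × ℤ).1 : ℝ) - s * ((p2, q2) : ℤ × ℤ).2| * κ ≤ 2 / lam := by
    rw [le_div_iff₀ hl0]
    exact hu2
  have b2' : |(((p2, q2) : ℤ × ℤ).2 : ℝ)| ≤ 2 / lam * κ := by
    rw [div_mul_eq_mul_div, le_div_iff₀ hl0]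
    exact hw2
  have T := T4_bound x y A B H s κ hH hs0 hsx hx hy hA hB hE hκ.le hκs
  have hcop : IsCoprime p1 q1 := ⟨q2, -p2, by linarith⟩
  have ha0 := no_root x y A B H hH hx hA hB hd hE p1 q1 hcop hq1
  have ta := T (p1, q1) (p1, q1) (p1, q1) (p1, q1) lam lam lam lam b1 b1' b1 b1' b1 b1' b1 b1'
  have tb := T (p1, q1) (p1, q1) (p1, q1) (p2, q2) lam lam lam (2 / lam)
    b1 b1' b1 b1' b1 b1' b2 b2'
  have tc := T (p1, q1) (p1, q1) (p2, q2) (p2, q2) lam lam (2 / lam) (2 / lam)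
    b1 b1' b1 b1' b2 b2' b2 b2'
  have td := T (p1, q1) (p2, q2) (p2, q2) (p2, q2) lam (2 / lam) (2 / lam) (2 / lam)
    b1 b1' b2 b2' b2 b2' b2 b2'
  have te := T (p2, q2) (p2, q2) (p2, q2) (p2, q2) (2 / lam) (2 / lam) (2 / lam) (2 / lam)
    b2 b2' b2 b2' b2 b2' b2 b2'
  refine ⟨lam, κ, T4 x y A (p1, q1) (p1, q1) (p1, q1) (p1, q1),
    T4 x y A (p1, q1) (p1, q1) (p1, q1) (p2, q2), T4 x y A (p1, q1) (p1, q1) (p2, q2) (p2, q2),
    T4 x y A (p1, q1) (p2, q2) (p2, q2) (p2, q2), T4 x y A (p2, q2) (p2, q2) (p2, q2) (p2, q2),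
    hl0, hl1, hκ, hκs, ⟨ha0, ?_, ?_, ?_, ?_, ?_⟩, ⟨q2, -q1, by omega, ?_, ?_, ?_, ?_, ?_⟩,
    inv_I x y A (p1, q1) (p2, q2) hdet, inv_J x y A B (p1, q1) (p2, q2) hdet hE⟩
  · refine ta.trans ?_
    have : 0 ≤ H * lam ^ 4 := by positivity
    nlinarith
  · refine tb.trans ?_
    have h1 : 322 * H * (lam * lam * lam * (2 / lam)) = 644 * (H * lam ^ 2) := by
      field_simp
      ring
    rw [h1]
    have : 0 ≤ H * lam ^ 2 := by positivity
    nlinarith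
  · refine tc.trans ?_
    have h1 : 322 * H * (lam * lam * (2 / lam) * (2 / lam)) = 1288 * H := by
      field_simp
      ring
    rw [h1]
    linarith
  · have h1 : 322 * H * (lam * (2 / lam) * (2 / lam) * (2 / lam)) * lam ^ 2 = 2576 * H := by
      field_simp
      ring
    have h2 := mul_le_mul_of_nonneg_right td (sq_nonneg lam)
    rw [h1] at h2
    linarith
  · have h1 : 322 * H * (2 / lam * (2 / lam) * (2 / lam) * (2 / lam)) * lam ^ 4 = 5152 * H := by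
      field_simp
      ring
    have h2 := mul_le_mul_of_nonneg_right te (by positivity : 0 ≤ lam ^ 4)
    rw [h1] at h2
    exact h2
  · exact ⟨p1, p2, by linarith⟩
  · push_cast
    rw [abs_neg, abs_of_pos hq1R]
    exact hw1
  · exact hw2
  · -- the lower bound for the norm
    push_cast
    rw [abs_neg, abs_of_pos hq1R]
    have h1 : ((p1 : ℝ) - s * q1) * q2 - (p2 - s * q2) * q1 = 1 := by
      have h2 : (p1 : ℝ) * q2 - p2 * q1 = 1 := by exact_mod_cast hdet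
      linarith
    have h3 : κ = (((p1 : ℝ) - s * q1) * κ) * q2 - ((p2 - s * q2) * κ) * q1 := by
      linear_combination -κ * h1
    have h4 : |(((p1 : ℝ) - s * q1) * κ) * q2| ≤ lam * |(q2 : ℝ)| := by
      rw [abs_mul, abs_mul, abs_of_pos hκpos]
      exact mul_le_mul_of_nonneg_right hu1 (abs_nonneg _)
    have h5 : |((p2 - s * q2) * κ) * q1| ≤ 2 / lam * q1 := by
      rw [abs_mul, abs_mul, abs_of_pos hκpos, abs_of_pos hq1R]
      exact mul_le_mul_of_nonneg_right b2 hq1R.le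
    have h6 := le_abs_self ((((p1 : ℝ) - s * q1) * κ) * q2)
    have h7 := neg_le_abs (((p2 - s * q2) * κ) * q1)
    have h8 : κ ≤ lam * |(q2 : ℝ)| + 2 / lam * q1 := by linarith
    have h9 : κ * lam ≤ (lam * |(q2 : ℝ)| + 2 / lam * q1) * lam :=
      mul_le_mul_of_nonneg_right h8 hl0.le
    have h10 : (lam * |(q2 : ℝ)| + 2 / lam * q1) * lam = |(q2 : ℝ)| * lam ^ 2 + 2 * q1 := by
      field_simp
    linarith
  · exact value_one x y A (p1, q1) (p2, q2) hdet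

end HT55
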