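import Pool.Agent.LibHT55.R4
import Pool.Agent.LibHT55.R1
import Pool.Agent.LibHT55.U1

set_option autoImplicit false

namespace HT55

/-- The pairs `(A, B)` of height at most `H` for which `y^2 = x^3 + A x + B` is an elliptic curve
with an integral point with `|x| ≤ X`. -/
def Exc (H X : ℝ) : Set (ℤ × ℤ) :=
  {p | |(p.1 : ℝ)| ≤ H ^ 2 ∧ |(p.2 : ℝ)| ≤ H ^ 3 ∧ 4 * p.1 ^ 3 + 27 * p.2 ^ 2 ≠ 0 ∧
    ∃ x y : ℤ, y ^ 2 = x ^ 3 + p.1 * x + p.2 ∧ |(x : ℝ)| ≤ X}

theorem exc_finite (H X : ℝ) : (Exc H X).Finite := by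
  have hbox : Exc H X ⊆ ((bal (H ^ 2) ×ˢ bal (H ^ 3) : Finset (ℤ × ℤ)) : Set (ℤ × ℤ)) := by
    rintro p ⟨h1, h2, _⟩
    rw [Finset.mem_coe, Finset.mem_product]
    exact ⟨mem_bal _ _ h1, mem_bal _ _ h2⟩
  exact (Finset.finite_toSet _).subset hbox

private theorem log_le (H : ℝ) (hH : 1 ≤ H) : Real.log H ≤ 2 * √H := by
  have h1 : 0 < √H := Real.sqrt_pos.2 (by linarith)
  have h2 := Real.log_le_sub_one_of_pos h1
  rw [Real.log_sqrt (by linarith)] at h2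
  linarith

private theorem bound_M (H M : ℝ) (hH : 1 ≤ H) (hM1 : 1 ≤ M) :
    (1 + Real.log H) * ((1 + Real.log M) * H ^ 4) ≤ 65 * (H ^ 4 * √H) + 10 * M ^ 2 := by
  have hH0 : 0 < H := by linarith
  have hM0 : 0 < M := by linarith
  obtain ⟨h, hh⟩ : ∃ h, h = √H := ⟨_, rfl⟩
  have hh1 : 1 ≤ h := by rw [hh]; exact Real.one_le_sqrt.2 hH
  have hh2 : h ^ 2 = H := by rw [hh]; exact Real.sq_sqrt hH0.le
  obtain ⟨q, hq⟩ : ∃ q, q = √h := ⟨_, rfl⟩
  have hq1 : 1 ≤ q := by rw [hq]; exact Real.one_le_sqrt.2 hh1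
  have hq2 : q ^ 2 = h := by rw [hq]; exact Real.sq_sqrt (by linarith)
  have hlH : 0 ≤ Real.log H := Real.log_nonneg hH
  have hlM : 0 ≤ Real.log M := Real.log_nonneg hM1
  have hlog : Real.log H ≤ 4 * q := by
    have h1 : Real.log q ≤ q - 1 := Real.log_le_sub_one_of_pos (by linarith)
    have h2 : H = q ^ 4 := by rw [← hh2, ← hq2]; ring
    rw [h2, Real.log_pow]
    push_cast
    linarith
  rw [← hh]
  have hqh : q ≤ h := by rw [← hq2]; nlinarith
  rcases le_or_gt M (H ^ 3) with hM | hM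
  · have h1 : Real.log M ≤ 12 * q := by
      have h2 : Real.log M ≤ Real.log (H ^ 3) := Real.log_le_log hM0 hM
      rw [Real.log_pow] at h2
      push_cast at h2
      linarith
    have h2 : (1 + Real.log H) * (1 + Real.log M) ≤ 65 * h := by
      calc (1 + Real.log H) * (1 + Real.log M) ≤ (5 * q) * (13 * q) := by
            apply mul_le_mul <;> linarith
        _ = 65 * h := by rw [← hq2]; ring
    have h3 : (1 + Real.log H) * (1 + Real.log M) * H ^ 4 ≤ 65 * h * H ^ 4 := by gcongr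
    nlinarith [sq_nonneg M]
  · obtain ⟨m, hm⟩ : ∃ m, m = √M := ⟨_, rfl⟩
    have hm1 : 1 ≤ m := by rw [hm]; exact Real.one_le_sqrt.2 hM1
    have hm2 : m ^ 2 = M := by rw [hm]; exact Real.sq_sqrt (by linarith)
    have h1 : Real.log M ≤ 2 * m - 2 := by
      have h2 : Real.log m ≤ m - 1 := Real.log_le_sub_one_of_pos (by linarith)
      rw [← hm2, Real.log_pow]
      push_cast
      linarith
    have h3 : h ^ 3 ≤ m := by
      have h4 : (h ^ 3) ^ 2 ≤ m ^ 2 := by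
        rw [hm2]
        calc (h ^ 3) ^ 2 = (h ^ 2) ^ 3 := by ring
          _ = H ^ 3 := by rw [hh2]
          _ ≤ M := hM.le
      exact le_of_pow_le_pow_left₀ (by norm_num) (by linarith) h4
    have h5 : H ^ 4 * h ≤ m ^ 3 := by
      calc H ^ 4 * h = (h ^ 3) ^ 3 := by rw [← hh2]; ring
        _ ≤ m ^ 3 := by gcongr
    have h6 : (1 + Real.log H) ≤ 5 * h := by linarith
    calc (1 + Real.log H) * ((1 + Real.log M) * H ^ 4) ≤ (5 * h) * ((2 * m) * H ^ 4) := by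
          gcongr
          linarith
      _ = 10 * ((H ^ 4 * h) * m) := by ring
      _ ≤ 10 * (m ^ 3 * m) := by gcongr
      _ = 10 * M ^ 2 := by rw [← hm2]; ring
      _ ≤ 65 * (H ^ 4 * h) + 10 * M ^ 2 := by
          have : 0 ≤ H ^ 4 * h := by positivity
          linarith

/-- **Upper bound**: at most `K (H^(9/2) + √X/H (1 + log H))` of the curves of height at most `H`
have an integral point with `|x| ≤ X`. -/
theorem exc_le : ∃ K : ℝ, ∀ H X : ℝ, 1 ≤ H → 0 ≤ X →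
    ((Exc H X).ncard : ℝ) ≤ K * (H ^ 4 * √H + √X / H * (1 + Real.log H)) := by
  obtain ⟨C, hC, hall⟩ := all_count
  obtain ⟨K2, hK2, hsmall⟩ := small_count'
  refine ⟨98 * C + K2, fun H X hH hX => ?_⟩
  have hH0 : 0 < H := by linarith
  have hs1 : 1 ≤ √H := Real.one_le_sqrt.2 hH
  have hlH : 0 ≤ Real.log H := Real.log_nonneg hH
  obtain ⟨W, hW⟩ : ∃ W, W = √X / H := ⟨_, rfl⟩
  have hW0 : 0 ≤ W := by rw [hW]; positivity
  rw [← hW]
  obtain ⟨M, hMd⟩ : ∃ M, M = √(1 + 4 * W) := ⟨_, rfl⟩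
  have hM : M ^ 2 = 1 + 4 * W := by rw [hMd]; exact Real.sq_sqrt (by positivity)
  have hM1 : 1 ≤ M := by
    rw [hMd]
    apply Real.one_le_sqrt.2
    linarith
  have hM0 : 0 ≤ M := by linarith
  obtain ⟨hf1, hf2⟩ := hall H M hH hM1
  obtain ⟨hs1', hs2⟩ := hsmall H hH
  set S2 : Set (ℤ × ℤ) := {p | |(p.1 : ℝ)| ≤ H ^ 2 ∧ |(p.2 : ℝ)| ≤ H ^ 3 ∧
    ∃ x y : ℤ, y ^ 2 = x ^ 3 + p.1 * x + p.2 ∧ (x : ℝ) ≤ 16 * H ^ 4} with hS2
  set φ : (ℤ × ℤ × ℤ × ℤ) × ℤ → ℤ × ℤ := fun F =>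
    ((F.1.1 * F.2 - 4 * F.1.2.1 * F.1.2.2.2 + 3 * F.1.2.2.1 ^ 2) / (-4),
      (F.1.1 * F.1.2.2.1 * F.2 + 2 * F.1.2.1 * F.1.2.2.1 * F.1.2.2.2
        - F.1.1 * F.1.2.2.2 ^ 2 - F.1.2.1 ^ 2 * F.2 - F.1.2.2.1 ^ 3) / (-4)) with hφ
  have hcover : Exc H X ⊆ φ '' (AllF H M) ∪ S2 := by
    rintro ⟨A, B⟩ ⟨hA, hB, hd, x, y, hE, hx⟩
    by_cases hx4 : (x : ℝ) ≤ 16 * H ^ 4
    · exact Or.inr ⟨hA, hB, x, y, hE, hx4⟩
    · left
      push Not at hx4
      have hE' : |y| ^ 2 = x ^ 3 + A * x + B := by rw [sq_abs]; exact hE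
      obtain ⟨lam, κ, a, b, c, d, e, hl0, hl1, hk1, hkx, hbox, hrep, hI, hJ⟩ :=
        reduction' x |y| A B H hH hx4 (abs_nonneg y) hA hB hd hE'
      have hkM : κ ≤ M := by
        have h1 : √(x : ℝ) ≤ √X := Real.sqrt_le_sqrt ((le_abs_self _).trans hx)
        have h2 : κ ^ 2 * H ≤ M ^ 2 * H := by
          rw [hkx, hM, hW]
          calc 4 * √(x : ℝ) ≤ 4 * √X := by linarith
            _ = 4 * (√X / H) * H := by field_simp
            _ ≤ (1 + 4 * (√X / H)) * H := by gcongr; linarith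
        have h3 : κ ^ 2 ≤ M ^ 2 := le_of_mul_le_mul_right h2 hH0
        exact le_of_pow_le_pow_left₀ (by norm_num) hM0 h3
      refine ⟨((a, b, c, d), e), ⟨lam, κ, hl0, hl1, hk1, hkM, hbox, hrep⟩, ?_⟩
      simp only [hφ, Prod.mk.injEq]
      constructor
      · rw [hI]
        omega
      · rw [hJ]
        omega
  have h1 : ((Exc H X).ncard : ℝ) ≤ ((AllF H M).ncard : ℝ) + (S2.ncard : ℝ) := by
    have h2 := Set.ncard_le_ncard hcover ((hf1.image φ).union hs1')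
    have h3 := Set.ncard_union_le (φ '' (AllF H M)) S2
    have h4 : (φ '' (AllF H M)).ncard ≤ (AllF H M).ncard := Set.ncard_image_le hf1
    have h5 := h2.trans (h3.trans (Nat.add_le_add_right h4 _))
    exact_mod_cast h5
  have h2 := bound_M H M hH hM1
  have h3 : (1 + Real.log H) * ((1 + Real.log M) * H ^ 4 + M ^ 2) ≤
      98 * (H ^ 4 * √H + W * (1 + Real.log H)) := by
    have h4 := log_le H hH
    have h5 : (1 : ℝ) ≤ H ^ 4 := one_le_pow₀ hH
    have h6 : √H ≤ H ^ 4 * √H := le_mul_of_one_le_left (by linarith) h5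
    have h7 : 0 ≤ W * (1 + Real.log H) := by positivity
    have h8 : 0 ≤ W * Real.log H := by positivity
    calc (1 + Real.log H) * ((1 + Real.log M) * H ^ 4 + M ^ 2) =
        (1 + Real.log H) * ((1 + Real.log M) * H ^ 4) + (1 + Real.log H) * M ^ 2 := by ring
      _ ≤ 65 * (H ^ 4 * √H) + 10 * M ^ 2 + (1 + Real.log H) * M ^ 2 := by linarith
      _ = 65 * (H ^ 4 * √H) + (11 + Real.log H) + 44 * W + 4 * (W * Real.log H) := by
          rw [hM]; ring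
      _ ≤ 98 * (H ^ 4 * √H + W * (1 + Real.log H)) := by
          rw [mul_add W, mul_one]
          linarith
  calc ((Exc H X).ncard : ℝ) ≤ ((AllF H M).ncard : ℝ) + (S2.ncard : ℝ) := h1
    _ ≤ C * (98 * (H ^ 4 * √H + W * (1 + Real.log H))) + K2 * (H ^ 4 * √H) := by
        refine add_le_add (hf2.trans ?_) hs2
        gcongr
    _ ≤ C * (98 * (H ^ 4 * √H + W * (1 + Real.log H))) +
        K2 * (H ^ 4 * √H + W * (1 + Real.log H)) := by
        have : 0 ≤ W * (1 + Real.log H) := by positivity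
        gcongr
        linarith
    _ = (98 * C + K2) * (H ^ 4 * √H + W * (1 + Real.log H)) := by ring

end HT55
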