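import Pool.Agent.LibHT55.L1
import Pool.Agent.LibHT55.R5

set_option autoImplicit false

namespace HT55

theorem exc_mono {H H' X : ℝ} (hH0 : 0 ≤ H) (h : H ≤ H') : Exc H X ⊆ Exc H' X := by
  rintro p ⟨h1, h2, h3, x, y, h4, h5⟩
  refine ⟨h1.trans ?_, h2.trans ?_, h3, x, y, h4, h5⟩ <;> gcongr

private theorem L2_mem {H : ℕ} {A B : ℤ} (hA : 1 ≤ A) (hAH : 4 * A ≤ (H : ℤ) ^ 2)
    (hB : B ∈ Val H A) {X : ℝ} (hX : (H : ℝ) ≤ X) : ((A, B) : ℤ × ℤ) ∈ Exc H X := by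
  obtain ⟨x, y, hx, hxH, hy, hyH, hB⟩ := hB
  have h0 : (0 : ℤ) ≤ H := by positivity
  obtain ⟨h, hh⟩ : ∃ h : ℤ, h = (H : ℤ) := ⟨_, rfl⟩
  have hhR : (h : ℝ) = (H : ℝ) := by rw [hh]; simp
  rw [← hh] at h0 hAH hxH hyH
  have a1 : |A| ≤ h ^ 2 := by
    rw [abs_le]
    constructor <;> nlinarith
  have a2 : |B| ≤ h ^ 3 := by
    have b1 : 0 ≤ A * x := by positivity
    have b2 : 4 * (A * x) * 2 ≤ h ^ 3 := by
      have := mul_le_mul hAH hxH (by positivity) (by positivity)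
      nlinarith
    have b3 : 8 * x ^ 3 ≤ h ^ 3 := by
      have := pow_le_pow_left₀ (by positivity) hxH 3
      nlinarith
    have b4 : 0 ≤ x ^ 3 := by positivity
    have b5 : 0 ≤ y ^ 2 := by positivity
    rw [abs_le]
    constructor <;> linarith
  refine ⟨?_, ?_, ?_, x, y, by rw [hB]; ring, ?_⟩
  · show |(A : ℝ)| ≤ (H : ℝ) ^ 2
    rw [← hhR]
    exact_mod_cast a1
  · show |(B : ℝ)| ≤ (H : ℝ) ^ 3
    rw [← hhR]
    exact_mod_cast a2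
  · show 4 * A ^ 3 + 27 * B ^ 2 ≠ 0
    have : 0 < 4 * A ^ 3 + 27 * B ^ 2 := by positivity
    exact this.ne'
  · refine le_trans ?_ hX
    have h1 : |x| ≤ h := by
      rw [abs_of_pos (by linarith)]
      linarith
    rw [← hhR]
    exact_mod_cast h1

private theorem L2_one {H X : ℝ} (hH : 1 ≤ H) (hX : 0 ≤ X) : 1 ≤ (Exc H X).ncard := by
  have h1 : ((0, 1) : ℤ × ℤ) ∈ Exc H X := by
    refine ⟨?_, ?_, ?_, 0, 1, ?_, ?_⟩
    · show |((0 : ℤ) : ℝ)| ≤ H ^ 2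
      simp
      positivity
    · show |((1 : ℤ) : ℝ)| ≤ H ^ 3
      simp
      exact one_le_pow₀ hH
    · show 4 * (0 : ℤ) ^ 3 + 27 * (1 : ℤ) ^ 2 ≠ 0
      norm_num
    · norm_num
    · simpa using hX
  have h2 : (Exc H X).Nonempty := ⟨_, h1⟩
  exact (Set.ncard_pos (exc_finite H X)).2 h2

private theorem L2_sum (H : ℕ) {X : ℝ} (hX : (H : ℝ) ≤ X) (R : ℕ) (hR : 4 * R ≤ H ^ 2) :
    ∑ A ∈ Finset.Icc (1 : ℤ) R, (Val H A).ncard ≤ (Exc H X).ncard := by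
  classical
  have e1 : ∑ A ∈ Finset.Icc (1 : ℤ) R, (Val H A).ncard =
      ((Finset.Icc (1 : ℤ) R).sigma fun A => (val_finite H A).toFinset).card := by
    rw [Finset.card_sigma]
    refine Finset.sum_congr rfl fun r _ => ?_
    rw [Set.ncard_eq_toFinset_card _ (val_finite H r)]
  rw [e1, Set.ncard_eq_toFinset_card _ (exc_finite H X)]
  refine Finset.card_le_card_of_injOn (fun a : (_ : ℤ) × ℤ => ((a.1, a.2) : ℤ × ℤ)) ?_ ?_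
  · rintro ⟨A, B⟩ hAB
    rw [Finset.mem_coe, Finset.mem_sigma, Set.Finite.mem_toFinset, Finset.mem_Icc] at hAB
    obtain ⟨⟨h1, h2⟩, h3⟩ := hAB
    rw [Finset.mem_coe, Set.Finite.mem_toFinset]
    refine L2_mem h1 ?_ h3 hX
    have h6 : ((4 * R : ℕ) : ℤ) ≤ ((H ^ 2 : ℕ) : ℤ) := by exact_mod_cast hR
    push_cast at h6
    linarith
  · rintro ⟨A, B⟩ _ ⟨A', B'⟩ _ h
    simp only [Prod.mk.injEq] at h
    obtain ⟨rfl, rfl⟩ := h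
    rfl

/-- **Lower bound**: at least `c H^(9/2)` of the curves of height at most `H` have an integral point
with `|x| ≤ H`. -/
theorem exc_ge : ∃ c : ℝ, 0 < c ∧ ∀ H X : ℝ, 1 ≤ H → H ≤ X →
    c * (H ^ 4 * √H) ≤ ((Exc H X).ncard : ℝ) := by
  obtain ⟨H₀, hval⟩ := val_card
  obtain ⟨H₁, hH₁⟩ : ∃ H₁ : ℕ, max (H₀ : ℝ) 16 + 1 ≤ (H₁ : ℝ) := exists_nat_ge _
  have hH₁a : (H₀ : ℝ) + 1 ≤ H₁ := le_trans (by linarith [le_max_left (H₀ : ℝ) 16]) hH₁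
  have hH₁b : (17 : ℝ) ≤ H₁ := le_trans (by linarith [le_max_right (H₀ : ℝ) 16]) hH₁
  have hpos : 0 < (H₁ : ℝ) ^ 4 * √(H₁ : ℝ) := by
    have : (0 : ℝ) < H₁ := by linarith
    positivity
  refine ⟨min (1 / 7680) (1 / ((H₁ : ℝ) ^ 4 * √(H₁ : ℝ))), lt_min (by positivity)
    (by positivity), fun H X hH hX => ?_⟩
  have hH0 : (0 : ℝ) ≤ H := by linarith
  have hHs : 0 ≤ H ^ 4 * √H := by positivity
  rcases le_or_gt (H₁ : ℝ) H with hle | hlt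
  · -- large `H`
    obtain ⟨n, hn⟩ : ∃ n : ℕ, n = ⌊H⌋₊ := ⟨_, rfl⟩
    have hn1 : (n : ℝ) ≤ H := by rw [hn]; exact Nat.floor_le hH0
    have hn2 : H < (n : ℝ) + 1 := by rw [hn]; exact Nat.lt_floor_add_one H
    have hn16 : (16 : ℝ) ≤ n := by linarith
    have hn16' : 16 ≤ n := by exact_mod_cast hn16
    have hnH₀ : H₀ ≤ n := by
      have : (H₀ : ℝ) ≤ n := by linarith
      exact_mod_cast this
    have hR : 4 * (n ^ 2 / 4) ≤ n ^ 2 := Nat.mul_div_le _ _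
    have h1 := L2_sum n (hn1.trans hX) (n ^ 2 / 4) hR
    have hR2 : (n : ℝ) ^ 2 / 8 ≤ ((n ^ 2 / 4 : ℕ) : ℝ) := by
      have h0 : 16 ≤ n ^ 2 := by nlinarith
      have h2 : n ^ 2 ≤ 8 * (n ^ 2 / 4) := by omega
      have h3 : (n : ℝ) ^ 2 ≤ 8 * ((n ^ 2 / 4 : ℕ) : ℝ) := by exact_mod_cast h2
      linarith
    have h5 : ∀ A ∈ Finset.Icc (1 : ℤ) ((n ^ 2 / 4 : ℕ) : ℤ), 1 / 30 * ((n : ℝ) ^ 2 * √(n : ℝ)) ≤
        (((Val n A).ncard : ℕ) : ℝ) := by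
      intro A hA
      rw [Finset.mem_Icc] at hA
      refine hval n A hnH₀ hA.1 ?_
      have h7 : ((4 * (n ^ 2 / 4) : ℕ) : ℤ) ≤ ((n ^ 2 : ℕ) : ℤ) := by exact_mod_cast hR
      have h8 := hA.2
      push_cast at h7 h8
      linarith
    have h6 : ((n ^ 2 / 4 : ℕ) : ℝ) * (1 / 30 * ((n : ℝ) ^ 2 * √(n : ℝ))) ≤
        ∑ A ∈ Finset.Icc (1 : ℤ) ((n ^ 2 / 4 : ℕ) : ℤ), (((Val n A).ncard : ℕ) : ℝ) := by
      have h7 := Finset.card_nsmul_le_sum _ _ _ h5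
      rw [Int.card_Icc, nsmul_eq_mul] at h7
      have h8 : (((n ^ 2 / 4 : ℕ) : ℤ) + 1 - 1).toNat = n ^ 2 / 4 := by
        rw [add_sub_cancel_right]
        exact Int.toNat_natCast _
      rw [h8] at h7
      exact h7
    have h7 : ∑ A ∈ Finset.Icc (1 : ℤ) ((n ^ 2 / 4 : ℕ) : ℤ), (((Val n A).ncard : ℕ) : ℝ) ≤
        (((Exc n X).ncard : ℕ) : ℝ) := by
      exact_mod_cast h1
    have h7' : (((Exc n X).ncard : ℕ) : ℝ) ≤ (((Exc H X).ncard : ℕ) : ℝ) := by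
      exact_mod_cast Set.ncard_le_ncard (exc_mono (Nat.cast_nonneg n) hn1) (exc_finite H X)
    have h8 : (n : ℝ) ^ 2 / 8 * (1 / 30 * ((n : ℝ) ^ 2 * √(n : ℝ))) ≤
        ((n ^ 2 / 4 : ℕ) : ℝ) * (1 / 30 * ((n : ℝ) ^ 2 * √(n : ℝ))) :=
      mul_le_mul_of_nonneg_right hR2 (by positivity)
    have hn3 : H / 2 ≤ n := by linarith
    have h9 : H ^ 4 * √H ≤ 32 * ((n : ℝ) ^ 4 * √(n : ℝ)) := by
      have k1 : √H ≤ 2 * √(n : ℝ) := by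
        rw [show (2 : ℝ) * √(n : ℝ) = √(4 * n) by
          rw [Real.sqrt_mul (by norm_num), show (4 : ℝ) = 2 ^ 2 by norm_num,
            Real.sqrt_sq (by norm_num)]]
        exact Real.sqrt_le_sqrt (by linarith)
      have k2 : H ^ 4 ≤ 16 * (n : ℝ) ^ 4 := by
        calc H ^ 4 ≤ (2 * (n : ℝ)) ^ 4 := pow_le_pow_left₀ hH0 (by linarith) 4
          _ = 16 * (n : ℝ) ^ 4 := by ring
      calc H ^ 4 * √H ≤ (16 * (n : ℝ) ^ 4) * (2 * √(n : ℝ)) :=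
            mul_le_mul k2 k1 (Real.sqrt_nonneg _) (by positivity)
        _ = 32 * ((n : ℝ) ^ 4 * √(n : ℝ)) := by ring
    have h10 : min (1 / 7680) (1 / ((H₁ : ℝ) ^ 4 * √(H₁ : ℝ))) * (H ^ 4 * √H) ≤
        1 / 7680 * (H ^ 4 * √H) := mul_le_mul_of_nonneg_right (min_le_left _ _) hHs
    have h11 : (n : ℝ) ^ 2 / 8 * (1 / 30 * ((n : ℝ) ^ 2 * √(n : ℝ))) =
        1 / 240 * ((n : ℝ) ^ 4 * √(n : ℝ)) := by ring
    linarith
  · -- small `H`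
    have h1 : (1 : ℝ) ≤ ((Exc H X).ncard : ℝ) := by exact_mod_cast L2_one hH (hH0.trans hX)
    refine le_trans ?_ h1
    have h2 : H ^ 4 * √H ≤ (H₁ : ℝ) ^ 4 * √(H₁ : ℝ) :=
      mul_le_mul (pow_le_pow_left₀ hH0 hlt.le 4) (Real.sqrt_le_sqrt hlt.le) (Real.sqrt_nonneg _)
        (by positivity)
    calc min (1 / 7680) (1 / ((H₁ : ℝ) ^ 4 * √(H₁ : ℝ))) * (H ^ 4 * √H)
        ≤ 1 / ((H₁ : ℝ) ^ 4 * √(H₁ : ℝ)) * (H ^ 4 * √H) :=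
          mul_le_mul_of_nonneg_right (min_le_right _ _) hHs
      _ ≤ 1 / ((H₁ : ℝ) ^ 4 * √(H₁ : ℝ)) * ((H₁ : ℝ) ^ 4 * √(H₁ : ℝ)) :=
          mul_le_mul_of_nonneg_left h2 (by positivity)
      _ = 1 := by field_simp

end HT55
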