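import Pool.Agent.LibHT55.Defs

set_option autoImplicit false

namespace HT55

theorem factor {g0 g1 g2 g3 g4 P Q : ℤ} (hQ : Q ≠ 0) (hc : IsCoprime P Q)
    (h : g0 * P ^ 4 + g1 * P ^ 3 * Q + g2 * P ^ 2 * Q ^ 2 + g3 * P * Q ^ 3 + g4 * Q ^ 4 = 0) :
    ∃ h0 h1 h2 h3 : ℤ, g0 = Q * h0 ∧ g1 = Q * h1 - P * h0 ∧ g2 = Q * h2 - P * h1 ∧
      g3 = Q * h3 - P * h2 ∧ g4 = -(P * h3) := by
  have hc' : ∀ n : ℕ, IsCoprime Q (P ^ n) := fun n => hc.symm.pow_right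
  obtain ⟨h0, e0⟩ : Q ∣ g0 := by
    refine (hc' 4).dvd_of_dvd_mul_right ?_
    exact ⟨-(g1 * P ^ 3 + g2 * P ^ 2 * Q + g3 * P * Q ^ 2 + g4 * Q ^ 3), by linear_combination h⟩
  subst e0
  have k1 : h0 * P ^ 4 + g1 * P ^ 3 + g2 * P ^ 2 * Q + g3 * P * Q ^ 2 + g4 * Q ^ 3 = 0 := by
    apply mul_left_cancel₀ hQ
    linear_combination h
  obtain ⟨h1, e1⟩ : Q ∣ g1 + P * h0 := by
    refine (hc' 3).dvd_of_dvd_mul_right ?_
    exact ⟨-(g2 * P ^ 2 + g3 * P * Q + g4 * Q ^ 2), by linear_combination k1⟩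
  obtain rfl : g1 = Q * h1 - P * h0 := by linear_combination e1
  have k2 : h1 * P ^ 3 + g2 * P ^ 2 + g3 * P * Q + g4 * Q ^ 2 = 0 := by
    apply mul_left_cancel₀ hQ
    linear_combination k1
  obtain ⟨h2, e2⟩ : Q ∣ g2 + P * h1 := by
    refine (hc' 2).dvd_of_dvd_mul_right ?_
    exact ⟨-(g3 * P + g4 * Q), by linear_combination k2⟩
  obtain rfl : g2 = Q * h2 - P * h1 := by linear_combination e2
  have k3 : h2 * P ^ 2 + g3 * P + g4 * Q = 0 := by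
    apply mul_left_cancel₀ hQ
    linear_combination k2
  obtain ⟨h3, e3⟩ : Q ∣ g3 + P * h2 := by
    refine (hc' 1).dvd_of_dvd_mul_right ?_
    exact ⟨-g4, by linear_combination k3⟩
  obtain rfl : g3 = Q * h3 - P * h2 := by linear_combination e3
  have k4 : h3 * P + g4 = 0 := by
    apply mul_left_cancel₀ hQ
    linear_combination k3
  exact ⟨h0, h1, h2, h3, rfl, rfl, rfl, rfl, by linear_combination k4⟩

private theorem div_step {c D X Y u : ℝ} (hc : 0 < c) (hX : c ≤ |X|) (hu : |u| ≤ D) (h : u = X * Y) :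
    |Y| ≤ D / c := by
  rw [le_div_iff₀ hc]
  calc |Y| * c ≤ |Y| * |X| := mul_le_mul_of_nonneg_left hX (abs_nonneg _)
    _ = |u| := by rw [h, abs_mul, mul_comm]
    _ ≤ D := hu

/-- The bounds for the quotient form, normalized. -/
private theorem norm_bound {D P Q g0 g1 g2 g3 g4 h0 h1 h2 h3 : ℝ} (hD : 0 ≤ D)
    (b0 : |g0| ≤ D) (b1 : |g1| ≤ D) (b2 : |g2| ≤ D) (b3 : |g3| ≤ D) (b4 : |g4| ≤ D)
    (hP : |P| ≤ 4) (hQ : |Q| ≤ 1) (hn : 1 / 8 ≤ |P| ∨ 1 / 16 ≤ |Q|)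
    (e0 : g0 = Q * h0) (e1 : g1 = Q * h1 - P * h0) (e2 : g2 = Q * h2 - P * h1)
    (e3 : g3 = Q * h3 - P * h2) (e4 : g4 = -(P * h3)) :
    |h0| ≤ 4260880 * D ∧ |h1| ≤ 4260880 * D ∧ |h2| ≤ 4260880 * D ∧ |h3| ≤ 4260880 * D := by
  rcases hn with hn | hn
  · have k3 : |h3| ≤ 8 * D := by
      have := div_step (D := D) (by norm_num) hn (u := -g4) (by rw [abs_neg]; exact b4)
        (Y := h3) (by rw [e4]; ring)
      linarith
    have k2 : |h2| ≤ 72 * D := by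
      have h4 : |Q * h3 - g3| ≤ 9 * D := by
        have h5 := abs_sub (Q * h3) g3
        have h6 : |Q * h3| ≤ 1 * (8 * D) := by
          rw [abs_mul]
          exact mul_le_mul hQ k3 (abs_nonneg _) zero_le_one
        linarith
      have := div_step (by norm_num) hn h4 (Y := h2) (by rw [e3]; ring)
      linarith
    have k1 : |h1| ≤ 584 * D := by
      have h4 : |Q * h2 - g2| ≤ 73 * D := by
        have h5 := abs_sub (Q * h2) g2
        have h6 : |Q * h2| ≤ 1 * (72 * D) := by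
          rw [abs_mul]
          exact mul_le_mul hQ k2 (abs_nonneg _) zero_le_one
        linarith
      have := div_step (by norm_num) hn h4 (Y := h1) (by rw [e2]; ring)
      linarith
    have k0 : |h0| ≤ 4680 * D := by
      have h4 : |Q * h1 - g1| ≤ 585 * D := by
        have h5 := abs_sub (Q * h1) g1
        have h6 : |Q * h1| ≤ 1 * (584 * D) := by
          rw [abs_mul]
          exact mul_le_mul hQ k1 (abs_nonneg _) zero_le_one
        linarith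
      have := div_step (by norm_num) hn h4 (Y := h0) (by rw [e1]; ring)
      linarith
    refine ⟨?_, ?_, ?_, ?_⟩ <;> linarith
  · have k0 : |h0| ≤ 16 * D := by
      have := div_step (by norm_num) hn b0 e0
      linarith
    have k1 : |h1| ≤ 1040 * D := by
      have h4 : |g1 + P * h0| ≤ 65 * D := by
        have h5 := abs_add_le g1 (P * h0)
        have h6 : |P * h0| ≤ 4 * (16 * D) := by
          rw [abs_mul]
          exact mul_le_mul hP k0 (abs_nonneg _) (by norm_num)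
        linarith
      have := div_step (by norm_num) hn h4 (Y := h1) (by rw [e1]; ring)
      linarith
    have k2 : |h2| ≤ 66576 * D := by
      have h4 : |g2 + P * h1| ≤ 4161 * D := by
        have h5 := abs_add_le g2 (P * h1)
        have h6 : |P * h1| ≤ 4 * (1040 * D) := by
          rw [abs_mul]
          exact mul_le_mul hP k1 (abs_nonneg _) (by norm_num)
        linarith
      have := div_step (by norm_num) hn h4 (Y := h2) (by rw [e2]; ring)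
      linarith
    have k3 : |h3| ≤ 4260880 * D := by
      have h4 : |g3 + P * h2| ≤ 266305 * D := by
        have h5 := abs_add_le g3 (P * h2)
        have h6 : |P * h2| ≤ 4 * (66576 * D) := by
          rw [abs_mul]
          exact mul_le_mul hP k2 (abs_nonneg _) (by norm_num)
        linarith
      have := div_step (by norm_num) hn h4 (Y := h3) (by rw [e3]; ring)
      linarith
    refine ⟨?_, ?_, ?_, ?_⟩ <;> linarith

/-- The bounds for the quotient form. -/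
theorem quot_bound {D K L P Q g0 g1 g2 g3 g4 h0 h1 h2 h3 : ℝ} (hD : 0 ≤ D) (hK : 0 < K)
    (hL : 0 < L) (b0 : |g0| ≤ D * L ^ 4) (b1 : |g1| ≤ D * L ^ 2) (b2 : |g2| ≤ D)
    (b3 : |g3| * L ^ 2 ≤ D) (b4 : |g4| * L ^ 4 ≤ D)
    (hP : |P| * L ≤ 4 * K) (hQ : |Q| ≤ L * K) (hn : K ≤ 8 * (|P| * L) ∨ K * L ≤ 16 * |Q|)
    (e0 : g0 = Q * h0) (e1 : g1 = Q * h1 - P * h0) (e2 : g2 = Q * h2 - P * h1)
    (e3 : g3 = Q * h3 - P * h2) (e4 : g4 = -(P * h3)) :
    |h0| ≤ 4260880 * D / K * L ^ 3 ∧ |h1| ≤ 4260880 * D / K * L ∧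
      |h2| ≤ 4260880 * D / K / L ∧ |h3| ≤ 4260880 * D / K / L ^ 3 := by
  have hK0 := hK.ne'
  have hL0 := hL.ne'
  have key := norm_bound (D := D) (P := P * L / K) (Q := Q / (L * K)) (g0 := g0 / L ^ 4)
    (g1 := g1 / L ^ 2) (g2 := g2) (g3 := g3 * L ^ 2) (g4 := g4 * L ^ 4)
    (h0 := h0 * K / L ^ 3) (h1 := h1 * K / L) (h2 := h2 * K * L) (h3 := h3 * K * L ^ 3) hD
    (by rw [abs_div, abs_of_pos (by positivity : 0 < L ^ 4), div_le_iff₀ (by positivity)]; exact b0)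
    (by rw [abs_div, abs_of_pos (by positivity : 0 < L ^ 2), div_le_iff₀ (by positivity)]; exact b1)
    b2
    (by rw [abs_mul, abs_of_pos (by positivity : 0 < L ^ 2)]; exact b3)
    (by rw [abs_mul, abs_of_pos (by positivity : 0 < L ^ 4)]; exact b4)
    (by rw [abs_div, abs_mul, abs_of_pos hL, abs_of_pos hK, div_le_iff₀ hK]; exact hP)
    (by rw [abs_div, abs_of_pos (by positivity : 0 < L * K), div_le_one (by positivity)]; exact hQ)
    (by
      rcases hn with hn | hn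
      · left
        rw [abs_div, abs_mul, abs_of_pos hL, abs_of_pos hK, le_div_iff₀ hK]
        linarith
      · right
        rw [abs_div, abs_of_pos (by positivity : 0 < L * K), le_div_iff₀ (by positivity)]
        linarith)
    (by rw [e0]; field_simp) (by rw [e1]; field_simp) (by rw [e2]; field_simp)
    (by rw [e3]; field_simp) (by rw [e4]; field_simp)
  obtain ⟨k0, k1, k2, k3⟩ := key
  rw [abs_div, abs_mul, abs_of_pos hK, abs_of_pos (by positivity : 0 < L ^ 3),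
    div_le_iff₀ (by positivity)] at k0
  rw [abs_div, abs_mul, abs_of_pos hK, abs_of_pos hL, div_le_iff₀ (by positivity)] at k1
  rw [abs_mul, abs_mul, abs_of_pos hK, abs_of_pos hL] at k2
  rw [abs_mul, abs_mul, abs_of_pos hK, abs_of_pos (by positivity : 0 < L ^ 3)] at k3
  refine ⟨?_, ?_, ?_, ?_⟩
  · rw [div_mul_eq_mul_div, le_div_iff₀ hK]
    linarith
  · rw [div_mul_eq_mul_div, le_div_iff₀ hK]
    linarith
  · rw [le_div_iff₀ hL, le_div_iff₀ hK]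
    linarith
  · rw [le_div_iff₀ (by positivity), le_div_iff₀ hK]
    linarith

/-- the integers with absolute value at most `ρ` -/
noncomputable def bal (ρ : ℝ) : Finset ℤ := Finset.Icc ⌈-ρ⌉ ⌊ρ⌋

theorem mem_bal (ρ : ℝ) (n : ℤ) (h : |(n : ℝ)| ≤ ρ) : n ∈ bal ρ := by
  rw [abs_le] at h
  rw [bal, Finset.mem_Icc]
  exact ⟨Int.ceil_le.2 h.1, Int.le_floor.2 h.2⟩

theorem card_bal (ρ : ℝ) (hρ : 0 ≤ ρ) : ((bal ρ).card : ℝ) ≤ 2 * ρ + 1 := by
  rw [bal, Int.card_Icc]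
  have h0 : 0 ≤ ⌊ρ⌋ := Int.floor_nonneg.2 hρ
  have h1 : ⌈-ρ⌉ ≤ 0 := Int.ceil_le.2 (by simpa using hρ)
  have h2 : (((⌊ρ⌋ + 1 - ⌈-ρ⌉).toNat : ℕ) : ℝ) = (⌊ρ⌋ : ℝ) + 1 - (⌈-ρ⌉ : ℝ) := by
    have h3 : (((⌊ρ⌋ + 1 - ⌈-ρ⌉).toNat : ℤ) : ℝ) = (⌊ρ⌋ : ℝ) + 1 - (⌈-ρ⌉ : ℝ) := by
      rw [Int.toNat_of_nonneg (by omega)]
      push_cast
      ring
    rw [← h3]
    exact (Int.cast_natCast _).symm
  rw [h2]
  have h3 := Int.floor_le ρ
  have h4 := Int.le_ceil (-ρ)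
  linarith

/-- the box with all sides for the dyadic value `L` -/
def BoxE (E L : ℝ) (F : (ℤ × ℤ × ℤ × ℤ) × ℤ) : Prop :=
  |(F.1.1 : ℝ)| ≤ E * L ^ 4 ∧ |(F.1.2.1 : ℝ)| ≤ E * L ^ 2 ∧ |(F.1.2.2.1 : ℝ)| ≤ E ∧
    |(F.1.2.2.2 : ℝ)| * L ^ 2 ≤ E ∧ |(F.2 : ℝ)| * L ^ 4 ≤ E

/-- the value of the form -/
def val (F : (ℤ × ℤ × ℤ × ℤ) × ℤ) (P Q : ℤ) : ℤ :=
  F.1.1 * P ^ 4 + 4 * F.1.2.1 * P ^ 3 * Q + 6 * F.1.2.2.1 * P ^ 2 * Q ^ 2
    + 4 * F.1.2.2.2 * P * Q ^ 3 + F.2 * Q ^ 4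

theorem fib_count (E K L : ℝ) (hE : 0 ≤ E) (hK : 0 < K) (hL : 0 < L) (P Q : ℤ) (hQ0 : Q ≠ 0)
    (hc : IsCoprime P Q) (hP : |(P : ℝ)| * L ≤ 4 * K) (hQ : |(Q : ℝ)| ≤ L * K)
    (hn : K ≤ 8 * (|(P : ℝ)| * L) ∨ K * L ≤ 16 * |(Q : ℝ)|) :
    {F : (ℤ × ℤ × ℤ × ℤ) × ℤ | BoxE E L F ∧ val F P Q = 1}.Finite ∧
    ({F : (ℤ × ℤ × ℤ × ℤ) × ℤ | BoxE E L F ∧ val F P Q = 1}.ncard : ℝ) ≤
      (2 * (4260880 * (12 * E) / K * L ^ 3) + 1) * (2 * (4260880 * (12 * E) / K * L) + 1) *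
        (2 * (4260880 * (12 * E) / K / L) + 1) * (2 * (4260880 * (12 * E) / K / L ^ 3) + 1) := by
  classical
  set S := {F : (ℤ × ℤ × ℤ × ℤ) × ℤ | BoxE E L F ∧ val F P Q = 1} with hS
  rcases Set.eq_empty_or_nonempty S with h0 | ⟨G, hG⟩
  · rw [h0]
    refine ⟨Set.finite_empty, ?_⟩
    rw [Set.ncard_empty]
    push_cast
    positivity
  obtain ⟨ρ, hρ⟩ : ∃ ρ : ℝ, ρ = 4260880 * (12 * E) / K := ⟨_, rfl⟩
  have hρ0 : 0 ≤ ρ := by rw [hρ]; positivity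
  rw [← hρ]
  set T : Finset (ℤ × ℤ × ℤ × ℤ) :=
    bal (ρ * L ^ 3) ×ˢ bal (ρ * L) ×ˢ bal (ρ / L) ×ˢ bal (ρ / L ^ 3) with hT
  set φ : ℤ × ℤ × ℤ × ℤ → (ℤ × ℤ × ℤ × ℤ) × ℤ := fun h =>
    ((G.1.1 + Q * h.1, G.1.2.1 + (Q * h.2.1 - P * h.1) / 4,
      G.1.2.2.1 + (Q * h.2.2.1 - P * h.2.1) / 6, G.1.2.2.2 + (Q * h.2.2.2 - P * h.2.2.1) / 4),
      G.2 + -(P * h.2.2.2)) with hφ
  have hsub : S ⊆ ((T.image φ : Finset _) : Set ((ℤ × ℤ × ℤ × ℤ) × ℤ)) := by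
    intro F hF
    obtain ⟨⟨⟨a, b, c, d⟩, e⟩, rfl⟩ : ∃ F', F' = F := ⟨F, rfl⟩
    obtain ⟨⟨f0, f1, f2, f3, f4⟩, fv⟩ := hF
    obtain ⟨⟨g0, g1, g2, g3, g4⟩, gv⟩ := hG
    obtain ⟨⟨a', b', c', d'⟩, e'⟩ := G
    simp only [val] at f0 f1 f2 f3 f4 fv g0 g1 g2 g3 g4 gv
    obtain ⟨h0, h1, h2, h3, e0, e1, e2, e3, e4⟩ := factor (g0 := a - a') (g1 := 4 * (b - b'))
      (g2 := 6 * (c - c')) (g3 := 4 * (d - d')) (g4 := e - e') hQ0 hc (by linear_combination fv - gv)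
    have r0 : ((a : ℝ) - a') = Q * h0 := by exact_mod_cast e0
    have r1 : (4 * ((b : ℝ) - b')) = Q * h1 - P * h0 := by exact_mod_cast e1
    have r2 : (6 * ((c : ℝ) - c')) = Q * h2 - P * h1 := by exact_mod_cast e2
    have r3 : (4 * ((d : ℝ) - d')) = Q * h3 - P * h2 := by exact_mod_cast e3
    have r4 : ((e : ℝ) - e') = -(P * h3) := by exact_mod_cast e4
    have hL2 : 0 < L ^ 2 := by positivity
    have hL4 : 0 < L ^ 4 := by positivity
    have q := quot_bound (D := 12 * E) (K := K) (L := L) (P := P) (Q := Q) (by positivity) hK hL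
      (g0 := (a : ℝ) - a') (g1 := 4 * ((b : ℝ) - b')) (g2 := 6 * ((c : ℝ) - c'))
      (g3 := 4 * ((d : ℝ) - d')) (g4 := (e : ℝ) - e') (h0 := h0) (h1 := h1) (h2 := h2) (h3 := h3)
      (by
        have := abs_sub (a : ℝ) a'
        have : 0 ≤ E * L ^ 4 := by positivity
        linarith)
      (by
        rw [abs_mul, abs_of_pos (by norm_num : (0 : ℝ) < 4)]
        have := abs_sub (b : ℝ) b'
        have : 0 ≤ E * L ^ 2 := by positivity
        linarith)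
      (by
        rw [abs_mul, abs_of_pos (by norm_num : (0 : ℝ) < 6)]
        have := abs_sub (c : ℝ) c'
        linarith)
      (by
        rw [abs_mul, abs_of_pos (by norm_num : (0 : ℝ) < 4)]
        have h5 := mul_le_mul_of_nonneg_right (abs_sub (d : ℝ) d') hL2.le
        rw [add_mul] at h5
        linarith)
      (by
        have h5 := mul_le_mul_of_nonneg_right (abs_sub (e : ℝ) e') hL4.le
        rw [add_mul] at h5
        linarith)
      hP hQ hn r0 r1 r2 r3 r4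
    rw [← hρ] at q
    obtain ⟨q0, q1, q2, q3⟩ := q
    rw [Finset.coe_image]
    refine ⟨(h0, h1, h2, h3), ?_, ?_⟩
    · rw [Finset.mem_coe, hT, Finset.mem_product, Finset.mem_product, Finset.mem_product]
      exact ⟨mem_bal _ _ q0, mem_bal _ _ q1, mem_bal _ _ q2, mem_bal _ _ q3⟩
    · simp only [hφ, Prod.mk.injEq]
      refine ⟨⟨?_, ?_, ?_, ?_⟩, ?_⟩ <;> omega
  refine ⟨(Finset.finite_toSet _).subset hsub, ?_⟩
  have h1 : S.ncard ≤ T.card := by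
    refine (Set.ncard_le_ncard hsub (Finset.finite_toSet _)).trans ?_
    rw [Set.ncard_coe_finset]
    exact Finset.card_image_le
  have h2 : (T.card : ℝ) = ((bal (ρ * L ^ 3)).card : ℝ) * (((bal (ρ * L)).card : ℝ) *
      (((bal (ρ / L)).card : ℝ) * ((bal (ρ / L ^ 3)).card : ℝ))) := by
    rw [hT, Finset.card_product, Finset.card_product, Finset.card_product]
    push_cast
    ring
  have c1 := card_bal (ρ * L ^ 3) (by positivity)
  have c2 := card_bal (ρ * L) (by positivity)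
  have c3 := card_bal (ρ / L) (by positivity)
  have c4 := card_bal (ρ / L ^ 3) (by positivity)
  calc (S.ncard : ℝ) ≤ T.card := by exact_mod_cast h1
    _ = _ := h2
    _ ≤ (2 * (ρ * L ^ 3) + 1) * ((2 * (ρ * L) + 1) * ((2 * (ρ / L) + 1) *
        (2 * (ρ / L ^ 3) + 1))) := by gcongr
    _ = _ := by ring

end HT55
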