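import Pool.Agent.LibHT55.R2

set_option autoImplicit false

namespace HT55

/-- a dyadic piece of the reduced forms -/
def Dy (H K L : ℝ) : Set ((ℤ × ℤ × ℤ × ℤ) × ℤ) :=
  {F | ∃ lam κ : ℝ, L / 2 < lam ∧ lam ≤ L ∧ K / 2 ≤ κ ∧ κ ≤ K ∧
    Box H lam F.1.1 F.1.2.1 F.1.2.2.1 F.1.2.2.2 F.2 ∧
    Rep κ lam F.1.1 F.1.2.1 F.1.2.2.1 F.1.2.2.2 F.2}

private theorem arith (r0 H K L t r : ℝ) (hr0 : 0 ≤ r0) (hH : 1 ≤ H) (hK : 1 ≤ K) (hL : 0 < L)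
    (hL1 : L ≤ 1) (ht : L * t = 1) (hT : t ^ 4 ≤ 5152 * H) (hr : r * K = r0 * H) (hr1 : 0 ≤ r) :
    K ^ 2 * ((r * L ^ 3 + 1) * (r * L + 1) * (r * t + 1) * (r * t ^ 3 + 1)) ≤
      (r0 ^ 4 + 20608 * r0 ^ 3 + 20610 * r0 ^ 2 + 53086208 * r0 ^ 2) * H ^ 4 + 3 * K ^ 2 := by
  have ht0 : 0 < t := by
    by_contra h
    push Not at h
    nlinarith
  have ht1 : 1 ≤ t := by
    by_contra h
    push Not at h
    nlinarith
  have hK0 : 0 < K := by linarith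
  have hH0 : 0 < H := by linarith
  obtain ⟨ρ, hρ⟩ : ∃ ρ : ℝ, ρ = r0 * H := ⟨_, rfl⟩
  have hρ0 : 0 ≤ ρ := by rw [hρ]; positivity
  rw [← hρ] at hr
  have hrρ : r ≤ ρ := by
    rw [← hr]
    exact le_mul_of_one_le_right hr1 hK
  obtain ⟨T, hTd⟩ : ∃ T : ℝ, T = 5152 * H := ⟨_, rfl⟩
  rw [← hTd] at hT
  have hT0 : 0 ≤ T := by rw [hTd]; positivity
  have ht3 : t ^ 3 ≤ T := by
    refine le_trans ?_ hT
    exact pow_le_pow_right₀ ht1 (by norm_num)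
  have ht4 : t ≤ t ^ 3 := by
    have := pow_le_pow_right₀ ht1 (show 1 ≤ 3 by norm_num)
    simpa using this
  have htT : t ≤ T := ht4.trans ht3
  have h6 : t ^ 6 ≤ T ^ 2 := by
    calc t ^ 6 ≤ t ^ 8 := pow_le_pow_right₀ ht1 (by norm_num)
      _ = (t ^ 4) ^ 2 := by ring
      _ ≤ T ^ 2 := by gcongr
  have hL3 : L ^ 3 ≤ t ^ 3 := pow_le_pow_left₀ hL.le (hL1.trans ht1) 3
  have hLt : L ≤ t := hL1.trans ht1
  have e1 : (r * L ^ 3 + 1) * (r * L + 1) * (r * t + 1) * (r * t ^ 3 + 1) =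
      (r ^ 2 + r * (L ^ 3 + t ^ 3) + 1) * (r ^ 2 + r * (L + t) + 1) := by
    have e2 : (r * L ^ 3 + 1) * (r * t ^ 3 + 1) = r ^ 2 * (L * t) ^ 3 + r * (L ^ 3 + t ^ 3) + 1 := by
      ring
    have e3 : (r * L + 1) * (r * t + 1) = r ^ 2 * (L * t) + r * (L + t) + 1 := by ring
    calc (r * L ^ 3 + 1) * (r * L + 1) * (r * t + 1) * (r * t ^ 3 + 1) =
        ((r * L ^ 3 + 1) * (r * t ^ 3 + 1)) * ((r * L + 1) * (r * t + 1)) := by ring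
      _ = _ := by rw [e2, e3, ht]; ring
  have e2 : (r ^ 2 + r * (L ^ 3 + t ^ 3) + 1) * (r ^ 2 + r * (L + t) + 1) ≤
      (r ^ 2 + r * (t ^ 3 + t ^ 3) + 1) * (r ^ 2 + r * (t + t) + 1) := by gcongr
  rw [e1]
  have e3 : K ^ 2 * ((r ^ 2 + r * (t ^ 3 + t ^ 3) + 1) * (r ^ 2 + r * (t + t) + 1)) =
      ρ ^ 2 * r ^ 2 + 2 * (ρ ^ 2 * (r * t)) + 2 * ρ ^ 2 + 2 * (ρ ^ 2 * (r * t ^ 3)) +
        4 * (ρ ^ 2 * t ^ 4) + 2 * (ρ * K * t ^ 3) + 2 * (ρ * K * t) + K ^ 2 := by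
    rw [← hr]
    ring
  have f1 : ρ ^ 2 * r ^ 2 ≤ ρ ^ 2 * ρ ^ 2 := by gcongr
  have f2 : ρ ^ 2 * (r * t) ≤ ρ ^ 2 * (ρ * T) := by gcongr
  have f3 : ρ ^ 2 * (r * t ^ 3) ≤ ρ ^ 2 * (ρ * T) := by gcongr
  have f4 : ρ ^ 2 * t ^ 4 ≤ ρ ^ 2 * T := by gcongr
  have f5 : ρ * K * t ≤ ρ * K * t ^ 3 := by gcongr
  have f6 : 2 * (ρ * K * t ^ 3) ≤ ρ ^ 2 * t ^ 6 + K ^ 2 := by
    nlinarith [sq_nonneg (ρ * t ^ 3 - K)]
  have f7 : ρ ^ 2 * t ^ 6 ≤ ρ ^ 2 * T ^ 2 := by gcongr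
  have g1 : K ^ 2 * ((r ^ 2 + r * (L ^ 3 + t ^ 3) + 1) * (r ^ 2 + r * (L + t) + 1)) ≤
      ρ ^ 4 + 4 * (ρ ^ 3 * T) + 2 * ρ ^ 2 + 4 * (ρ ^ 2 * T) + 2 * (ρ ^ 2 * T ^ 2) + 3 * K ^ 2 := by
    have h7 := mul_le_mul_of_nonneg_left e2 (sq_nonneg K)
    rw [e3] at h7
    nlinarith
  refine g1.trans ?_
  have hH2 : H ^ 2 ≤ H ^ 4 := pow_le_pow_right₀ hH (by norm_num)
  have hH3 : H ^ 3 ≤ H ^ 4 := pow_le_pow_right₀ hH (by norm_num)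
  have k2 : r0 ^ 2 * H ^ 2 ≤ r0 ^ 2 * H ^ 4 := by gcongr
  have k3 : r0 ^ 2 * H ^ 3 ≤ r0 ^ 2 * H ^ 4 := by gcongr
  have e4 : ρ ^ 4 + 4 * (ρ ^ 3 * T) + 2 * ρ ^ 2 + 4 * (ρ ^ 2 * T) + 2 * (ρ ^ 2 * T ^ 2) =
      r0 ^ 4 * H ^ 4 + 20608 * (r0 ^ 3 * H ^ 4) + 2 * (r0 ^ 2 * H ^ 2) + 20608 * (r0 ^ 2 * H ^ 3) +
        53086208 * (r0 ^ 2 * H ^ 4) := by
    rw [hρ, hTd]
    ring
  rw [e4]
  linarith

theorem dy_count : ∃ C : ℝ, 0 ≤ C ∧ ∀ H K L : ℝ, 1 ≤ H → 1 ≤ K → 0 < L → L ≤ 1 →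
    (Dy H K L).Finite ∧ ((Dy H K L).ncard : ℝ) ≤ C * (H ^ 4 + K ^ 2) := by
  classical
  obtain ⟨r0, hr0d⟩ : ∃ r0 : ℝ, r0 = 2 * (4260880 * (12 * 82432)) := ⟨_, rfl⟩
  have hr0 : 0 ≤ r0 := by rw [hr0d]; norm_num
  obtain ⟨C0, hC0d⟩ : ∃ C0 : ℝ, C0 = r0 ^ 4 + 20608 * r0 ^ 3 + 20610 * r0 ^ 2 +
    53086208 * r0 ^ 2 := ⟨_, rfl⟩
  have hC0 : 0 ≤ C0 := by rw [hC0d]; positivity
  refine ⟨27 * (C0 + 3), by positivity, fun H K L hH hK hL hL1 => ?_⟩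
  rcases Set.eq_empty_or_nonempty (Dy H K L) with h0 | ⟨G, hG⟩
  · rw [h0]
    refine ⟨Set.finite_empty, ?_⟩
    rw [Set.ncard_empty]
    push_cast
    positivity
  have hK0 : 0 < K := by linarith
  have hH0 : 0 < H := by linarith
  -- from the first element
  have hLK : 1 ≤ L * K ∧ 1 ≤ 5152 * H * L ^ 4 := by
    obtain ⟨lam, κ, hl1, hl2, hk1, hk2, ⟨ha, ha2, -⟩, P, Q, hQ0, -, hQ, -⟩ := hG
    have hlam : 0 < lam := by linarith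
    have h1 : (1 : ℝ) ≤ |(Q : ℝ)| := by
      have := Int.one_le_abs hQ0
      exact_mod_cast this
    have h2 : (1 : ℝ) ≤ |(G.1.1 : ℝ)| := by
      have := Int.one_le_abs ha
      exact_mod_cast this
    constructor
    · refine h1.trans (hQ.trans ?_)
      have : 0 ≤ κ := by linarith
      gcongr
    · refine h2.trans (ha2.trans ?_)
      gcongr
  obtain ⟨hLK, hLH⟩ := hLK
  obtain ⟨t, ht⟩ : ∃ t : ℝ, t = 1 / L := ⟨_, rfl⟩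
  have hLt : L * t = 1 := by rw [ht]; field_simp
  have ht4 : t ^ 4 ≤ 5152 * H := by
    rw [ht, div_pow, one_pow, div_le_iff₀ (by positivity)]
    exact hLH
  have ht0 : 0 < t := by rw [ht]; positivity
  set E : ℝ := 82432 * H with hE
  have hE0 : 0 ≤ E := by positivity
  set W : Finset (ℤ × ℤ) := (bal (4 * K / L) ×ˢ bal (L * K)).filter (fun p => p.2 ≠ 0 ∧
    IsCoprime p.1 p.2 ∧ |(p.1 : ℝ)| * L ≤ 4 * K ∧ |(p.2 : ℝ)| ≤ L * K ∧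
    (K ≤ 8 * (|(p.1 : ℝ)| * L) ∨ K * L ≤ 16 * |(p.2 : ℝ)|)) with hW
  have hsub : Dy H K L ⊆ ⋃ p ∈ W, {F : (ℤ × ℤ × ℤ × ℤ) × ℤ | BoxE E L F ∧ val F p.1 p.2 = 1} := by
    rintro F ⟨lam, κ, hl1, hl2, hk1, hk2, ⟨ha, ha2, hb, hc, hd, he⟩, P, Q, hQ0, hcop, hQ, hP, hn, hv⟩
    have hlam : 0 < lam := by linarith
    have hκ : 0 < κ := by linarith
    have hLl : L ≤ 2 * lam := by linarith
    have hL2 : L ^ 2 ≤ 4 * lam ^ 2 := by nlinarith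
    have hL4 : L ^ 4 ≤ 16 * lam ^ 4 := by
      calc L ^ 4 = (L ^ 2) ^ 2 := by ring
        _ ≤ (4 * lam ^ 2) ^ 2 := by gcongr
        _ = 16 * lam ^ 4 := by ring
    rw [Set.mem_iUnion₂]
    have w3 : |(P : ℝ)| * L ≤ 4 * K := by
      have h1 : |(P : ℝ)| * L ≤ |(P : ℝ)| * (2 * lam) := by gcongr
      linarith
    have w4 : |(Q : ℝ)| ≤ L * K := by
      refine hQ.trans ?_
      gcongr
    have w5 : K ≤ 8 * (|(P : ℝ)| * L) ∨ K * L ≤ 16 * |(Q : ℝ)| := by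
      by_contra hcon
      push Not at hcon
      obtain ⟨c1, c2⟩ := hcon
      have h1 : K * L / 4 ≤ κ * lam := by
        have h2 : K / 2 * (L / 2) ≤ κ * lam := by
          apply mul_le_mul hk1 hl1.le (by positivity) hκ.le
        linarith
      have h2 : |(P : ℝ)| * lam ^ 2 ≤ |(P : ℝ)| * L ^ 2 := by gcongr
      have h3 : 8 * (|(P : ℝ)| * L) * L < K * L := mul_lt_mul_of_pos_right c1 hL
      have h4 : 8 * (|(P : ℝ)| * L) * L = 8 * (|(P : ℝ)| * L ^ 2) := by ring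
      linarith
    refine ⟨(P, Q), ?_, ⟨?_, ?_, ?_, ?_, ?_⟩, ?_⟩
    · rw [hW, Finset.mem_filter, Finset.mem_product]
      refine ⟨⟨mem_bal _ _ ?_, mem_bal _ _ w4⟩, hQ0, hcop, w3, w4, w5⟩
      rw [le_div_iff₀ hL]
      exact w3
    · refine ha2.trans ?_
      have h1 : lam ^ 4 ≤ L ^ 4 := by gcongr
      have h2 : 5152 * H * lam ^ 4 ≤ 5152 * H * L ^ 4 := by gcongr
      have h3 : 0 ≤ H * L ^ 4 := by positivity
      rw [hE]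
      linarith
    · refine hb.trans ?_
      have h2 : 5152 * H * lam ^ 2 ≤ 5152 * H * L ^ 2 := by gcongr
      have h3 : 0 ≤ H * L ^ 2 := by positivity
      rw [hE]
      linarith
    · rw [hE]; linarith
    · have h1 : |(F.1.2.2.2 : ℝ)| * L ^ 2 ≤ |(F.1.2.2.2 : ℝ)| * (4 * lam ^ 2) := by gcongr
      rw [hE]
      linarith
    · have h1 : |(F.2 : ℝ)| * L ^ 4 ≤ |(F.2 : ℝ)| * (16 * lam ^ 4) := by gcongr
      rw [hE]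
      linarith
    · exact hv
  -- the count for one pair
  obtain ⟨r, hrd⟩ : ∃ r : ℝ, r = r0 * H / K := ⟨_, rfl⟩
  have hr1 : 0 ≤ r := by rw [hrd]; positivity
  have hrK : r * K = r0 * H := by rw [hrd]; field_simp
  obtain ⟨w, hw⟩ : ∃ w : ℝ, w = (r * L ^ 3 + 1) * (r * L + 1) * (r * t + 1) * (r * t ^ 3 + 1) :=
    ⟨_, rfl⟩
  have hw0 : 0 ≤ w := by rw [hw]; positivity
  have hfib : ∀ p ∈ W, {F : (ℤ × ℤ × ℤ × ℤ) × ℤ | BoxE E L F ∧ val F p.1 p.2 = 1}.Finite ∧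
      ({F : (ℤ × ℤ × ℤ × ℤ) × ℤ | BoxE E L F ∧ val F p.1 p.2 = 1}.ncard : ℝ) ≤ w := by
    intro p hp
    rw [hW, Finset.mem_filter] at hp
    obtain ⟨-, h1, h2, h3, h4, h5⟩ := hp
    obtain ⟨k1, k2⟩ := fib_count E K L hE0 hK0 hL p.1 p.2 h1 h2 h3 h4 h5
    refine ⟨k1, k2.trans (le_of_eq ?_)⟩
    have e1 : 2 * (4260880 * (12 * E) / K * L ^ 3) = r * L ^ 3 := by
      rw [hrd, hr0d, hE]; ring
    have e2 : 2 * (4260880 * (12 * E) / K * L) = r * L := by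
      rw [hrd, hr0d, hE]; ring
    have e3 : 2 * (4260880 * (12 * E) / K / L) = r * t := by
      rw [hrd, hr0d, hE, ht]; ring
    have e4 : 2 * (4260880 * (12 * E) / K / L ^ 3) = r * t ^ 3 := by
      rw [hrd, hr0d, hE, ht]; ring
    rw [e1, e2, e3, e4, hw]
  have hfin : (⋃ p ∈ W, {F : (ℤ × ℤ × ℤ × ℤ) × ℤ | BoxE E L F ∧ val F p.1 p.2 = 1}).Finite :=
    Set.Finite.biUnion (Finset.finite_toSet W) fun p hp => (hfib p hp).1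
  refine ⟨hfin.subset hsub, ?_⟩
  have hWc : (W.card : ℝ) ≤ 27 * K ^ 2 := by
    have h1 : W.card ≤ (bal (4 * K / L)).card * (bal (L * K)).card := by
      rw [← Finset.card_product]
      exact Finset.card_filter_le _ _
    have h2 := card_bal (4 * K / L) (by positivity)
    have h3 := card_bal (L * K) (by positivity)
    have h4 : 1 ≤ K / L := by
      rw [le_div_iff₀ hL]
      linarith
    have h5 : 2 * (4 * K / L) + 1 ≤ 9 * (K / L) := by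
      have : 2 * (4 * K / L) = 8 * (K / L) := by ring
      linarith
    have h6 : 2 * (L * K) + 1 ≤ 3 * (L * K) := by linarith
    calc (W.card : ℝ) ≤ ((bal (4 * K / L)).card : ℝ) * ((bal (L * K)).card : ℝ) := by
          exact_mod_cast h1
      _ ≤ (9 * (K / L)) * (3 * (L * K)) := by
          apply mul_le_mul (h2.trans h5) (h3.trans h6) (by positivity) (by positivity)
      _ = 27 * K ^ 2 := by field_simp; ring
  have hsum : ((⋃ p ∈ W, {F : (ℤ × ℤ × ℤ × ℤ) × ℤ | BoxE E L F ∧ val F p.1 p.2 = 1}).ncard : ℝ) ≤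
      W.card * w := by
    have h1 := Finset.set_ncard_biUnion_le W
      (fun p => {F : (ℤ × ℤ × ℤ × ℤ) × ℤ | BoxE E L F ∧ val F p.1 p.2 = 1})
    calc ((⋃ p ∈ W, {F : (ℤ × ℤ × ℤ × ℤ) × ℤ | BoxE E L F ∧ val F p.1 p.2 = 1}).ncard : ℝ)
        ≤ ((∑ p ∈ W, {F : (ℤ × ℤ × ℤ × ℤ) × ℤ | BoxE E L F ∧ val F p.1 p.2 = 1}.ncard : ℕ) : ℝ) := by
          exact_mod_cast h1
      _ = ∑ p ∈ W, ({F : (ℤ × ℤ × ℤ × ℤ) × ℤ | BoxE E L F ∧ val F p.1 p.2 = 1}.ncard : ℝ) := by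
          push_cast
          rfl
      _ ≤ ∑ _p ∈ W, w := Finset.sum_le_sum fun p hp => (hfib p hp).2
      _ = W.card * w := by rw [Finset.sum_const, nsmul_eq_mul]
  have har := arith r0 H K L t r hr0 hH hK hL hL1 hLt ht4 hrK hr1
  rw [← hC0d, ← hw] at har
  have hle := Set.ncard_le_ncard hsub hfin
  calc ((Dy H K L).ncard : ℝ) ≤
      ((⋃ p ∈ W, {F : (ℤ × ℤ × ℤ × ℤ) × ℤ | BoxE E L F ∧ val F p.1 p.2 = 1}).ncard : ℝ) := by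
        exact_mod_cast hle
    _ ≤ W.card * w := hsum
    _ ≤ 27 * K ^ 2 * w := by gcongr
    _ = 27 * (K ^ 2 * w) := by ring
    _ ≤ 27 * (C0 * H ^ 4 + 3 * K ^ 2) := by gcongr
    _ ≤ 27 * (C0 + 3) * (H ^ 4 + K ^ 2) := by
        have h1 : 0 ≤ C0 * K ^ 2 := by positivity
        have h2 : 0 ≤ H ^ 4 := by positivity
        nlinarith

end HT55
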