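import Pool.Agent.LibHT55.R3

set_option autoImplicit false

namespace HT55

/-- all the reduced forms with `κ ≤ M` -/
def AllF (H M : ℝ) : Set ((ℤ × ℤ × ℤ × ℤ) × ℤ) :=
  {F | ∃ lam κ : ℝ, 0 < lam ∧ lam ≤ 1 ∧ 1 < κ ∧ κ ≤ M ∧
    Box H lam F.1.1 F.1.2.1 F.1.2.2.1 F.1.2.2.2 F.2 ∧
    Rep κ lam F.1.1 F.1.2.1 F.1.2.2.1 F.1.2.2.2 F.2}

private theorem geom (n : ℕ) : ∑ j ∈ Finset.range n, (4 : ℝ) ^ (j + 1) ≤ 4 / 3 * 4 ^ n := by
  induction n with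
  | zero => norm_num
  | succ n ih =>
    rw [Finset.sum_range_succ, pow_succ]
    have : (0 : ℝ) < 4 ^ n := by positivity
    linarith

private theorem log_pow_two {n : ℕ} {x : ℝ} (hx : (2 : ℝ) ^ n ≤ x) : (n : ℝ) ≤ 2 * Real.log x := by
  have h1 : Real.log ((2 : ℝ) ^ n) ≤ Real.log x := Real.log_le_log (by positivity) hx
  rw [Real.log_pow] at h1
  have h2 : (1 : ℝ) / 2 ≤ Real.log 2 := by
    have := Real.log_two_gt_d9
    linarith
  have h3 : (n : ℝ) * (1 / 2) ≤ n * Real.log 2 := by gcongr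
  linarith

theorem all_count : ∃ C : ℝ, 0 ≤ C ∧ ∀ H M : ℝ, 1 ≤ H → 1 ≤ M →
    (AllF H M).Finite ∧
    ((AllF H M).ncard : ℝ) ≤ C * ((1 + Real.log H) * ((1 + Real.log M) * H ^ 4 + M ^ 2)) := by
  classical
  obtain ⟨C, hC, hdy⟩ := dy_count
  have hl5 : 0 ≤ Real.log 5152 := Real.log_nonneg (by norm_num)
  obtain ⟨c1, hc1d⟩ : ∃ c1 : ℝ, c1 = 3 + 2 * Real.log 5152 := ⟨_, rfl⟩
  have hc1 : 0 ≤ c1 := by rw [hc1d]; positivity
  refine ⟨6 * c1 * C, by positivity, fun H M hH hM => ?_⟩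
  have hH0 : 0 < H := by linarith
  have hM0 : 0 < M := by linarith
  have hlH : 0 ≤ Real.log H := Real.log_nonneg hH
  have hlM : 0 ≤ Real.log M := Real.log_nonneg hM
  obtain ⟨n0, hn1, hn2⟩ := exists_nat_pow_near (show (1 : ℝ) ≤ 5152 * H by linarith)
    (show (1 : ℝ) < 2 by norm_num)
  obtain ⟨m0, hm1, hm2⟩ := exists_nat_pow_near hM (show (1 : ℝ) < 2 by norm_num)
  set W : Finset (ℕ × ℕ) := Finset.range (n0 + 1) ×ˢ Finset.range (m0 + 1) with hW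
  have hsub : AllF H M ⊆ ⋃ p ∈ W, Dy H (2 ^ (p.2 + 1)) ((1 / 2) ^ p.1) := by
    rintro F ⟨lam, κ, hl0, hl1, hk1, hk2, hbox, hrep⟩
    have hlam : 1 ≤ 1 / lam := by rw [le_div_iff₀ hl0]; linarith
    obtain ⟨i, hi1, hi2⟩ := exists_nat_pow_near hlam (show (1 : ℝ) < 2 by norm_num)
    obtain ⟨j, hj1, hj2⟩ := exists_nat_pow_near hk1.le (show (1 : ℝ) < 2 by norm_num)
    have h1 : 1 / lam ≤ 5152 * H := by
      have h2 : (1 : ℝ) ≤ |(F.1.1 : ℝ)| := by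
        have := Int.one_le_abs hbox.1
        exact_mod_cast this
      have h3 : lam ^ 4 ≤ lam := by
        have := pow_le_pow_of_le_one hl0.le hl1 (show 1 ≤ 4 by norm_num)
        simpa using this
      have h4 : 5152 * H * lam ^ 4 ≤ 5152 * H * lam := by gcongr
      rw [div_le_iff₀ hl0]
      linarith [hbox.2.1]
    rw [Set.mem_iUnion₂]
    refine ⟨(i, j), ?_, lam, κ, ?_, ?_, ?_, ?_, hbox, hrep⟩
    · rw [hW, Finset.mem_product, Finset.mem_range, Finset.mem_range]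
      constructor
      · exact (pow_lt_pow_iff_right₀ (show (1 : ℝ) < 2 by norm_num)).1
          (lt_of_le_of_lt (hi1.trans h1) hn2)
      · exact (pow_lt_pow_iff_right₀ (show (1 : ℝ) < 2 by norm_num)).1
          (lt_of_le_of_lt (hj1.trans hk2) hm2)
    · have h4 : (0 : ℝ) < 2 ^ (i + 1) := by positivity
      rw [div_lt_iff₀ hl0] at hi2
      show (1 / 2 : ℝ) ^ i / 2 < lam
      rw [one_div, inv_pow, div_lt_iff₀ (by norm_num : (0 : ℝ) < 2), inv_lt_iff_one_lt_mul₀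
        (by positivity)]
      calc (1 : ℝ) < 2 ^ (i + 1) * lam := hi2
        _ = lam * 2 * 2 ^ i := by ring
    · show lam ≤ (1 / 2 : ℝ) ^ i
      rw [le_div_iff₀ hl0] at hi1
      rw [one_div, inv_pow, le_inv_comm₀ hl0 (by positivity)]
      rw [le_inv_comm₀ (by positivity) hl0]
      rw [← one_div, le_div_iff₀ (by positivity)]
      linarith
    · show (2 : ℝ) ^ (j + 1) / 2 ≤ κ
      rw [pow_succ]
      linarith
    · exact hj2.le
  have hpiece : ∀ p ∈ W, (Dy H (2 ^ (p.2 + 1)) ((1 / 2) ^ p.1)).Finite ∧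
      ((Dy H (2 ^ (p.2 + 1)) ((1 / 2) ^ p.1)).ncard : ℝ) ≤ C * (H ^ 4 + 4 ^ (p.2 + 1)) := by
    intro p _
    have h1 := hdy H (2 ^ (p.2 + 1)) ((1 / 2) ^ p.1) hH (one_le_pow₀ (by norm_num))
      (by positivity) (pow_le_one₀ (by norm_num) (by norm_num))
    have h2 : ((2 : ℝ) ^ (p.2 + 1)) ^ 2 = 4 ^ (p.2 + 1) := by
      rw [← pow_mul, mul_comm, pow_mul]
      norm_num
    rw [h2] at h1
    exact h1
  have hfin : (⋃ p ∈ W, Dy H (2 ^ (p.2 + 1)) ((1 / 2) ^ p.1)).Finite :=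
    Set.Finite.biUnion (Finset.finite_toSet W) fun p hp => (hpiece p hp).1
  refine ⟨hfin.subset hsub, ?_⟩
  have hn0 : ((n0 + 1 : ℕ) : ℝ) ≤ c1 * (1 + Real.log H) := by
    have h1 := log_pow_two hn1
    rw [Real.log_mul (by norm_num) hH0.ne'] at h1
    push_cast
    rw [hc1d]
    have h2 : 0 ≤ Real.log 5152 * Real.log H := by positivity
    nlinarith
  have hm0 : ((m0 + 1 : ℕ) : ℝ) ≤ 2 * (1 + Real.log M) := by
    have h1 := log_pow_two hm1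
    push_cast
    linarith
  have hg : ∑ j ∈ Finset.range (m0 + 1), (4 : ℝ) ^ (j + 1) ≤ 6 * M ^ 2 := by
    have h1 := geom (m0 + 1)
    have h2 : (4 : ℝ) ^ (m0 + 1) = 4 * ((2 : ℝ) ^ m0) ^ 2 := by
      rw [pow_succ, ← pow_mul, mul_comm m0 2, pow_mul]
      norm_num
      ring
    have h3 : ((2 : ℝ) ^ m0) ^ 2 ≤ M ^ 2 := by gcongr
    rw [h2] at h1
    nlinarith [sq_nonneg M]
  have hsum : ((⋃ p ∈ W, Dy H (2 ^ (p.2 + 1)) ((1 / 2) ^ p.1)).ncard : ℝ) ≤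
      ((n0 + 1 : ℕ) : ℝ) * (C * (((m0 + 1 : ℕ) : ℝ) * H ^ 4 +
        ∑ j ∈ Finset.range (m0 + 1), (4 : ℝ) ^ (j + 1))) := by
    have h1 := Finset.set_ncard_biUnion_le W (fun p => Dy H (2 ^ (p.2 + 1)) ((1 / 2) ^ p.1))
    calc ((⋃ p ∈ W, Dy H (2 ^ (p.2 + 1)) ((1 / 2) ^ p.1)).ncard : ℝ)
        ≤ ((∑ p ∈ W, (Dy H (2 ^ (p.2 + 1)) ((1 / 2) ^ p.1)).ncard : ℕ) : ℝ) := by
          exact_mod_cast h1
      _ = ∑ p ∈ W, ((Dy H (2 ^ (p.2 + 1)) ((1 / 2) ^ p.1)).ncard : ℝ) := by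
          push_cast
          rfl
      _ ≤ ∑ p ∈ W, C * (H ^ 4 + 4 ^ (p.2 + 1)) := Finset.sum_le_sum fun p hp => (hpiece p hp).2
      _ = ∑ _i ∈ Finset.range (n0 + 1), ∑ j ∈ Finset.range (m0 + 1),
            C * (H ^ 4 + 4 ^ (j + 1)) := by
          rw [hW, Finset.sum_product]
      _ = _ := by
          rw [Finset.sum_const, Finset.card_range, nsmul_eq_mul, ← Finset.mul_sum,
            Finset.sum_add_distrib, Finset.sum_const, Finset.card_range, nsmul_eq_mul]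
  have hle := Set.ncard_le_ncard hsub hfin
  calc ((AllF H M).ncard : ℝ) ≤
      ((⋃ p ∈ W, Dy H (2 ^ (p.2 + 1)) ((1 / 2) ^ p.1)).ncard : ℝ) := by exact_mod_cast hle
    _ ≤ _ := hsum
    _ ≤ (c1 * (1 + Real.log H)) * (C * (2 * (1 + Real.log M) * H ^ 4 + 6 * M ^ 2)) := by
        gcongr
    _ ≤ (c1 * (1 + Real.log H)) * (C * (6 * (1 + Real.log M) * H ^ 4 + 6 * M ^ 2)) := by
        have h1 : 0 ≤ (1 + Real.log M) * H ^ 4 := by positivity
        gcongr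
        norm_num
    _ = 6 * c1 * C * ((1 + Real.log H) * ((1 + Real.log M) * H ^ 4 + M ^ 2)) := by ring

end HT55
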