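import Pool.Agent.LibHT55.R3
import Pool.Agent.LibHLP.DivBound

/-!
The divisor trick: `a P^4 ≡ 1 mod Q` bounds the number of pairs `(P, Q)`.
-/

set_option autoImplicit false

namespace HT55

/-- all the integral divisors -/
def idiv (n : ℤ) : Finset ℤ :=
  n.natAbs.divisors.image (fun d : ℕ => (d : ℤ)) ∪ n.natAbs.divisors.image (fun d : ℕ => -(d : ℤ))

theorem mem_idiv {n q : ℤ} (hn : n ≠ 0) (h : q ∣ n) : q ∈ idiv n := by
  have h1 : q.natAbs ∈ n.natAbs.divisors := by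
    rw [Nat.mem_divisors]
    exact ⟨Int.natAbs_dvd_natAbs.2 h, Int.natAbs_ne_zero.2 hn⟩
  rw [idiv, Finset.mem_union, Finset.mem_image, Finset.mem_image]
  rcases Int.natAbs_eq q with h2 | h2
  · exact Or.inl ⟨_, h1, h2.symm⟩
  · exact Or.inr ⟨_, h1, h2.symm⟩

theorem card_idiv (n : ℤ) : (idiv n).card ≤ 2 * n.natAbs.divisors.card := by
  rw [idiv]
  refine (Finset.card_union_le _ _).trans ?_
  have h1 : (n.natAbs.divisors.image (fun d : ℕ => (d : ℤ))).card ≤ n.natAbs.divisors.card :=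
    Finset.card_image_le
  have h2 : (n.natAbs.divisors.image (fun d : ℕ => -(d : ℤ))).card ≤ n.natAbs.divisors.card :=
    Finset.card_image_le
  omega

/-- The number of pairs. -/
theorem pairs_div (θ : ℝ) (hθ : 0 < θ) : ∃ C : ℝ, 0 ≤ C ∧ ∀ H K L : ℝ, 1 ≤ H → 1 ≤ K → 0 < L →
    L ≤ 1 → 1 ≤ L * K → 1 ≤ 82432 * H * L ^ 4 → ∀ W : Finset (ℤ × ℤ),
    (∀ p ∈ W, |(p.1 : ℝ)| * L ≤ 4 * K ∧ |(p.2 : ℝ)| ≤ L * K ∧
      ∃ a : ℤ, a ≠ 0 ∧ |(a : ℝ)| ≤ 82432 * H * L ^ 4 ∧ p.2 ∣ a * p.1 ^ 4 - 1) →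
    (W.card : ℝ) ≤ C * (H * K * L ^ 3) * (H * K) ^ θ + 6 * (L * K) := by
  classical
  obtain ⟨C, hC, hdiv⟩ := Pool.Agent.LibHLP.exists_card_divisors_le (θ / 4) (by positivity)
  obtain ⟨c, hc⟩ : ∃ c : ℝ, c = (257 * 82432 : ℝ) ^ (θ / 4) := ⟨_, rfl⟩
  have hc0 : 0 < c := by rw [hc]; positivity
  refine ⟨27 * 82432 * (2 * C * c), by positivity, ?_⟩
  intro H K L hH hK hL hL1 hLK hLH W hW
  have hH0 : 0 < H := by linarith
  have hK0 : 0 < K := by linarith
  obtain ⟨E, hE⟩ : ∃ E : ℝ, E = 82432 * H := ⟨_, rfl⟩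
  rw [← hE] at hLH
  have hE0 : 0 < E := by rw [hE]; positivity
  have hE1 : 1 ≤ E := by rw [hE]; linarith
  set W1 : Finset (ℤ × ℤ) := ({1, -1} : Finset ℤ) ×ˢ bal (L * K) with hW1
  set S : Finset (ℤ × ℤ) := (bal (E * L ^ 4) ×ˢ bal (4 * K / L)).filter
    (fun s => s.1 * s.2 ^ 4 - 1 ≠ 0) with hS
  set W2 : Finset (ℤ × ℤ) := S.biUnion (fun s => (idiv (s.1 * s.2 ^ 4 - 1)).image
    (fun q => (s.2, q))) with hW2
  have hsub : W ⊆ W1 ∪ W2 := by
    rintro ⟨P, Q⟩ hp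
    obtain ⟨h1, h2, a, ha0, ha, hd⟩ := hW _ hp
    rw [Finset.mem_union]
    by_cases h : a * P ^ 4 - 1 = 0
    · left
      rw [hW1, Finset.mem_product]
      refine ⟨?_, mem_bal _ _ h2⟩
      have h3 : P ∣ 1 := ⟨a * P ^ 3, by linear_combination -h⟩
      have h4 := Int.isUnit_iff.1 (isUnit_of_dvd_one h3)
      rw [Finset.mem_insert, Finset.mem_singleton]
      exact h4
    · right
      rw [hW2, Finset.mem_biUnion]
      refine ⟨(a, P), ?_, ?_⟩
      · rw [hS, Finset.mem_filter, Finset.mem_product]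
        refine ⟨⟨mem_bal _ _ ?_, mem_bal _ _ ?_⟩, h⟩
        · rw [hE]; exact ha
        · rw [le_div_iff₀ hL]; exact h1
      · rw [Finset.mem_image]
        exact ⟨Q, mem_idiv h hd, rfl⟩
  have hc1 : (W1.card : ℝ) ≤ 6 * (L * K) := by
    rw [hW1, Finset.card_product]
    have h1 : (({1, -1} : Finset ℤ)).card ≤ 2 := Finset.card_le_two
    have h2 := card_bal (L * K) (by positivity)
    have h3 : (((({1, -1} : Finset ℤ)).card : ℕ) : ℝ) ≤ 2 := by exact_mod_cast h1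
    push_cast
    calc (((({1, -1} : Finset ℤ)).card : ℕ) : ℝ) * ((bal (L * K)).card : ℝ) ≤
        2 * (2 * (L * K) + 1) := mul_le_mul h3 h2 (by positivity) (by norm_num)
      _ ≤ 6 * (L * K) := by linarith
  -- the number of divisors
  have hdv : ∀ s ∈ S, (((idiv (s.1 * s.2 ^ 4 - 1)).image (fun q => (s.2, q))).card : ℝ) ≤
      2 * C * c * (H * K) ^ θ := by
    intro s hs
    rw [hS, Finset.mem_filter, Finset.mem_product] at hs
    obtain ⟨⟨h1, h2⟩, h3⟩ := hs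
    have h1' : |(s.1 : ℝ)| ≤ E * L ^ 4 := by
      rw [bal, Finset.mem_Icc] at h1
      rw [abs_le]
      exact ⟨Int.ceil_le.1 h1.1, Int.le_floor.1 h1.2⟩
    have h2' : |(s.2 : ℝ)| ≤ 4 * K / L := by
      rw [bal, Finset.mem_Icc] at h2
      rw [abs_le]
      exact ⟨Int.ceil_le.1 h2.1, Int.le_floor.1 h2.2⟩
    have h4 : (((s.1 * s.2 ^ 4 - 1).natAbs : ℕ) : ℝ) ≤ 257 * 82432 * (H * K) ^ 4 := by
      have e1 : (((s.1 * s.2 ^ 4 - 1).natAbs : ℕ) : ℝ) = |(s.1 : ℝ) * (s.2 : ℝ) ^ 4 - 1| := by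
        rw [Nat.cast_natAbs]
        push_cast
        rfl
      rw [e1]
      have h5 := abs_sub ((s.1 : ℝ) * (s.2 : ℝ) ^ 4) 1
      have h6 : |(s.1 : ℝ) * (s.2 : ℝ) ^ 4| ≤ (E * L ^ 4) * (4 * K / L) ^ 4 := by
        rw [abs_mul, abs_pow]
        gcongr
      have h7 : (E * L ^ 4) * (4 * K / L) ^ 4 = 256 * (E * K ^ 4) := by
        field_simp
        ring
      rw [h7] at h6
      have h8 : 1 ≤ E * K ^ 4 := by
        have := one_le_pow₀ hK (n := 4)
        nlinarith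
      have h9 : H ≤ H ^ 4 := by
        have := pow_le_pow_right₀ hH (show 1 ≤ 4 by norm_num)
        simpa using this
      rw [abs_one] at h5
      calc |(s.1 : ℝ) * (s.2 : ℝ) ^ 4 - 1| ≤ 257 * (E * K ^ 4) := by linarith
        _ = 257 * 82432 * (H * K ^ 4) := by rw [hE]; ring
        _ ≤ 257 * 82432 * (H ^ 4 * K ^ 4) := by gcongr
        _ = 257 * 82432 * (H * K) ^ 4 := by ring
    have h5 := hdiv (s.1 * s.2 ^ 4 - 1).natAbs (Int.natAbs_ne_zero.2 h3)
    have h6 : (((s.1 * s.2 ^ 4 - 1).natAbs : ℕ) : ℝ) ^ (θ / 4) ≤ c * (H * K) ^ θ := by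
      calc (((s.1 * s.2 ^ 4 - 1).natAbs : ℕ) : ℝ) ^ (θ / 4) ≤
          (257 * 82432 * (H * K) ^ 4) ^ (θ / 4) :=
            Real.rpow_le_rpow (Nat.cast_nonneg _) h4 (by positivity)
        _ = c * (H * K) ^ θ := by
            rw [Real.mul_rpow (by norm_num) (by positivity), hc, ← Real.rpow_natCast,
              ← Real.rpow_mul (by positivity)]
            congr 2
            push_cast
            ring
    have h7 : ((idiv (s.1 * s.2 ^ 4 - 1)).image (fun q => (s.2, q))).card ≤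
        2 * (s.1 * s.2 ^ 4 - 1).natAbs.divisors.card :=
      Finset.card_image_le.trans (card_idiv _)
    calc (((idiv (s.1 * s.2 ^ 4 - 1)).image (fun q => (s.2, q))).card : ℝ) ≤
        2 * ((s.1 * s.2 ^ 4 - 1).natAbs.divisors.card : ℝ) := by exact_mod_cast h7
      _ ≤ 2 * (C * (((s.1 * s.2 ^ 4 - 1).natAbs : ℕ) : ℝ) ^ (θ / 4)) := by gcongr
      _ ≤ 2 * (C * (c * (H * K) ^ θ)) := by gcongr
      _ = 2 * C * c * (H * K) ^ θ := by ring
  have hSc : (S.card : ℝ) ≤ 27 * (E * K * L ^ 3) := by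
    have h1 : S.card ≤ (bal (E * L ^ 4)).card * (bal (4 * K / L)).card := by
      rw [← Finset.card_product]
      exact Finset.card_filter_le _ _
    have h2 := card_bal (E * L ^ 4) (by positivity)
    have h3 := card_bal (4 * K / L) (by positivity)
    have h4 : 1 ≤ K / L := by
      rw [le_div_iff₀ hL]
      linarith
    have h5 : 2 * (4 * K / L) + 1 ≤ 9 * (K / L) := by
      have : 2 * (4 * K / L) = 8 * (K / L) := by ring
      linarith
    have h6 : 2 * (E * L ^ 4) + 1 ≤ 3 * (E * L ^ 4) := by linarith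
    calc (S.card : ℝ) ≤ ((bal (E * L ^ 4)).card : ℝ) * ((bal (4 * K / L)).card : ℝ) := by
          exact_mod_cast h1
      _ ≤ (3 * (E * L ^ 4)) * (9 * (K / L)) := by
          apply mul_le_mul (h2.trans h6) (h3.trans h5) (by positivity) (by positivity)
      _ = 27 * (E * K * L ^ 3) := by field_simp; ring
  have hc2 : (W2.card : ℝ) ≤ 27 * (E * K * L ^ 3) * (2 * C * c * (H * K) ^ θ) := by
    calc (W2.card : ℝ) ≤ ((∑ s ∈ S, ((idiv (s.1 * s.2 ^ 4 - 1)).image (fun q => (s.2, q))).card :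
          ℕ) : ℝ) := by exact_mod_cast Finset.card_biUnion_le
      _ = ∑ s ∈ S, (((idiv (s.1 * s.2 ^ 4 - 1)).image (fun q => (s.2, q))).card : ℝ) := by
          push_cast
          rfl
      _ ≤ ∑ _s ∈ S, 2 * C * c * (H * K) ^ θ := Finset.sum_le_sum hdv
      _ = S.card * (2 * C * c * (H * K) ^ θ) := by rw [Finset.sum_const, nsmul_eq_mul]
      _ ≤ 27 * (E * K * L ^ 3) * (2 * C * c * (H * K) ^ θ) := by gcongr
  have h1 : (W.card : ℝ) ≤ W1.card + W2.card := by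
    exact_mod_cast (Finset.card_le_card hsub).trans (Finset.card_union_le _ _)
  calc (W.card : ℝ) ≤ W1.card + W2.card := h1
    _ ≤ 6 * (L * K) + 27 * (E * K * L ^ 3) * (2 * C * c * (H * K) ^ θ) := add_le_add hc1 hc2
    _ = 27 * 82432 * (2 * C * c) * (H * K * L ^ 3) * (H * K) ^ θ + 6 * (L * K) := by
        rw [hE]; ring

end HT55
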