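import Pool.Agent.LibHT55.R3
import Pool.Agent.LibHT55.R6

set_option autoImplicit false

namespace HT55

/-- the dyadic piece is covered by few pairs -/
theorem dy_cover (H K L r0 : ℝ) (hr0d : r0 = 2 * (4260880 * (12 * 82432))) (hH : 1 ≤ H)
    (hK : 1 ≤ K) (hL : 0 < L) (hne : (Dy H K L).Nonempty) :
    ∃ (t r : ℝ) (W : Finset (ℤ × ℤ)), L * t = 1 ∧ t ^ 4 ≤ 5152 * H ∧ 1 ≤ L * K ∧
      1 ≤ 82432 * H * L ^ 4 ∧ r * K = r0 * H ∧ 0 ≤ r ∧
      (∀ p ∈ W, |(p.1 : ℝ)| * L ≤ 4 * K ∧ |(p.2 : ℝ)| ≤ L * K ∧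
        ∃ a : ℤ, a ≠ 0 ∧ |(a : ℝ)| ≤ 82432 * H * L ^ 4 ∧ p.2 ∣ a * p.1 ^ 4 - 1) ∧
      ((Dy H K L).ncard : ℝ) ≤
        W.card * ((r * L ^ 3 + 1) * (r * L + 1) * (r * t + 1) * (r * t ^ 3 + 1)) := by
  classical
  obtain ⟨G, hG⟩ := hne
  have hr0 : 0 ≤ r0 := by rw [hr0d]; norm_num
  have hK0 : 0 < K := by linarith
  have hH0 : 0 < H := by linarith
  -- from the first element
  have hLK : 1 ≤ L * K ∧ 1 ≤ 5152 * H * L ^ 4 := by
    obtain ⟨lam, κ, hl1, hl2, hk1, hk2, ⟨ha, ha2, -⟩, P, Q, hQ0, -, hQ, -⟩ := hG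
    have hlam : 0 < lam := by linarith
    have h1 : (1 : ℝ) ≤ |(Q : ℝ)| := by
      have := Int.one_le_abs hQ0
      exact_mod_cast this
    have h2 : (1 : ℝ) ≤ |(G.1.1 : ℝ)| := by
      have := Int.one_le_abs ha
      exact_mod_cast this
    constructor
    · refine h1.trans (hQ.trans ?_)
      have : 0 ≤ κ := by linarith
      gcongr
    · refine h2.trans (ha2.trans ?_)
      gcongr
  obtain ⟨hLK, hLH⟩ := hLK
  obtain ⟨t, ht⟩ : ∃ t : ℝ, t = 1 / L := ⟨_, rfl⟩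
  have hLt : L * t = 1 := by rw [ht]; field_simp
  have ht4 : t ^ 4 ≤ 5152 * H := by
    rw [ht, div_pow, one_pow, div_le_iff₀ (by positivity)]
    exact hLH
  have ht0 : 0 < t := by rw [ht]; positivity
  set E : ℝ := 82432 * H with hE
  have hE0 : 0 ≤ E := by positivity
  set W : Finset (ℤ × ℤ) := (bal (4 * K / L) ×ˢ bal (L * K)).filter (fun p => p.2 ≠ 0 ∧
    IsCoprime p.1 p.2 ∧ |(p.1 : ℝ)| * L ≤ 4 * K ∧ |(p.2 : ℝ)| ≤ L * K ∧
    (K ≤ 8 * (|(p.1 : ℝ)| * L) ∨ K * L ≤ 16 * |(p.2 : ℝ)|) ∧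
    ∃ a : ℤ, a ≠ 0 ∧ |(a : ℝ)| ≤ 82432 * H * L ^ 4 ∧ p.2 ∣ a * p.1 ^ 4 - 1) with hW
  have hsub : Dy H K L ⊆ ⋃ p ∈ W, {F : (ℤ × ℤ × ℤ × ℤ) × ℤ | BoxE E L F ∧ val F p.1 p.2 = 1} := by
    rintro F ⟨lam, κ, hl1, hl2, hk1, hk2, ⟨ha, ha2, hb, hc, hd, he⟩, P, Q, hQ0, hcop, hQ, hP, hn, hv⟩
    have hlam : 0 < lam := by linarith
    have hκ : 0 < κ := by linarith
    have hLl : L ≤ 2 * lam := by linarith
    have hL2 : L ^ 2 ≤ 4 * lam ^ 2 := by nlinarith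
    have hL4 : L ^ 4 ≤ 16 * lam ^ 4 := by
      calc L ^ 4 = (L ^ 2) ^ 2 := by ring
        _ ≤ (4 * lam ^ 2) ^ 2 := by gcongr
        _ = 16 * lam ^ 4 := by ring
    rw [Set.mem_iUnion₂]
    have w3 : |(P : ℝ)| * L ≤ 4 * K := by
      have h1 : |(P : ℝ)| * L ≤ |(P : ℝ)| * (2 * lam) := by gcongr
      linarith
    have w4 : |(Q : ℝ)| ≤ L * K := by
      refine hQ.trans ?_
      gcongr
    have w5 : K ≤ 8 * (|(P : ℝ)| * L) ∨ K * L ≤ 16 * |(Q : ℝ)| := by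
      by_contra hcon
      push Not at hcon
      obtain ⟨c1, c2⟩ := hcon
      have h1 : K * L / 4 ≤ κ * lam := by
        have h2 : K / 2 * (L / 2) ≤ κ * lam := by
          apply mul_le_mul hk1 hl1.le (by positivity) hκ.le
        linarith
      have h2 : |(P : ℝ)| * lam ^ 2 ≤ |(P : ℝ)| * L ^ 2 := by gcongr
      have h3 : 8 * (|(P : ℝ)| * L) * L < K * L := mul_lt_mul_of_pos_right c1 hL
      have h4 : 8 * (|(P : ℝ)| * L) * L = 8 * (|(P : ℝ)| * L ^ 2) := by ring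
      linarith
    refine ⟨(P, Q), ?_, ⟨?_, ?_, ?_, ?_, ?_⟩, ?_⟩
    · rw [hW, Finset.mem_filter, Finset.mem_product]
      refine ⟨⟨mem_bal _ _ ?_, mem_bal _ _ w4⟩, hQ0, hcop, w3, w4, w5, F.1.1, ha, ?_, ?_⟩
      · rw [le_div_iff₀ hL]
        exact w3
      · refine ha2.trans ?_
        have h1 : lam ^ 4 ≤ L ^ 4 := by gcongr
        have h2 : 5152 * H * lam ^ 4 ≤ 5152 * H * L ^ 4 := by gcongr
        have h3 : 0 ≤ H * L ^ 4 := by positivity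
        linarith
      · exact ⟨-(4 * F.1.2.1 * P ^ 3 + 6 * F.1.2.2.1 * P ^ 2 * Q + 4 * F.1.2.2.2 * P * Q ^ 2 +
          F.2 * Q ^ 3), by linear_combination hv⟩
    · refine ha2.trans ?_
      have h1 : lam ^ 4 ≤ L ^ 4 := by gcongr
      have h2 : 5152 * H * lam ^ 4 ≤ 5152 * H * L ^ 4 := by gcongr
      have h3 : 0 ≤ H * L ^ 4 := by positivity
      rw [hE]
      linarith
    · refine hb.trans ?_
      have h2 : 5152 * H * lam ^ 2 ≤ 5152 * H * L ^ 2 := by gcongr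
      have h3 : 0 ≤ H * L ^ 2 := by positivity
      rw [hE]
      linarith
    · rw [hE]; linarith
    · have h1 : |(F.1.2.2.2 : ℝ)| * L ^ 2 ≤ |(F.1.2.2.2 : ℝ)| * (4 * lam ^ 2) := by gcongr
      rw [hE]
      linarith
    · have h1 : |(F.2 : ℝ)| * L ^ 4 ≤ |(F.2 : ℝ)| * (16 * lam ^ 4) := by gcongr
      rw [hE]
      linarith
    · exact hv
  -- the count for one pair
  obtain ⟨r, hrd⟩ : ∃ r : ℝ, r = r0 * H / K := ⟨_, rfl⟩
  have hr1 : 0 ≤ r := by rw [hrd]; positivity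
  have hrK : r * K = r0 * H := by rw [hrd]; field_simp
  obtain ⟨w, hw⟩ : ∃ w : ℝ, w = (r * L ^ 3 + 1) * (r * L + 1) * (r * t + 1) * (r * t ^ 3 + 1) :=
    ⟨_, rfl⟩
  have hw0 : 0 ≤ w := by rw [hw]; positivity
  have hfib : ∀ p ∈ W, {F : (ℤ × ℤ × ℤ × ℤ) × ℤ | BoxE E L F ∧ val F p.1 p.2 = 1}.Finite ∧
      ({F : (ℤ × ℤ × ℤ × ℤ) × ℤ | BoxE E L F ∧ val F p.1 p.2 = 1}.ncard : ℝ) ≤ w := by
    intro p hp
    rw [hW, Finset.mem_filter] at hp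
    obtain ⟨-, h1, h2, h3, h4, h5, -⟩ := hp
    obtain ⟨k1, k2⟩ := fib_count E K L hE0 hK0 hL p.1 p.2 h1 h2 h3 h4 h5
    refine ⟨k1, k2.trans (le_of_eq ?_)⟩
    have e1 : 2 * (4260880 * (12 * E) / K * L ^ 3) = r * L ^ 3 := by
      rw [hrd, hr0d, hE]; ring
    have e2 : 2 * (4260880 * (12 * E) / K * L) = r * L := by
      rw [hrd, hr0d, hE]; ring
    have e3 : 2 * (4260880 * (12 * E) / K / L) = r * t := by
      rw [hrd, hr0d, hE, ht]; ring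
    have e4 : 2 * (4260880 * (12 * E) / K / L ^ 3) = r * t ^ 3 := by
      rw [hrd, hr0d, hE, ht]; ring
    rw [e1, e2, e3, e4, hw]
  have hfin : (⋃ p ∈ W, {F : (ℤ × ℤ × ℤ × ℤ) × ℤ | BoxE E L F ∧ val F p.1 p.2 = 1}).Finite :=
    Set.Finite.biUnion (Finset.finite_toSet W) fun p hp => (hfib p hp).1
  have hsum : ((⋃ p ∈ W, {F : (ℤ × ℤ × ℤ × ℤ) × ℤ | BoxE E L F ∧ val F p.1 p.2 = 1}).ncard : ℝ) ≤
      W.card * w := by
    have h1 := Finset.set_ncard_biUnion_le W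
      (fun p => {F : (ℤ × ℤ × ℤ × ℤ) × ℤ | BoxE E L F ∧ val F p.1 p.2 = 1})
    calc ((⋃ p ∈ W, {F : (ℤ × ℤ × ℤ × ℤ) × ℤ | BoxE E L F ∧ val F p.1 p.2 = 1}).ncard : ℝ)
        ≤ ((∑ p ∈ W, {F : (ℤ × ℤ × ℤ × ℤ) × ℤ | BoxE E L F ∧ val F p.1 p.2 = 1}.ncard : ℕ) : ℝ) := by
          exact_mod_cast h1
      _ = ∑ p ∈ W, ({F : (ℤ × ℤ × ℤ × ℤ) × ℤ | BoxE E L F ∧ val F p.1 p.2 = 1}.ncard : ℝ) := by
          push_cast
          rfl
      _ ≤ ∑ _p ∈ W, w := Finset.sum_le_sum fun p hp => (hfib p hp).2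
      _ = W.card * w := by rw [Finset.sum_const, nsmul_eq_mul]
  have hle := Set.ncard_le_ncard hsub hfin
  refine ⟨t, r, W, hLt, ht4, hLK, by linarith, hrK, hr1, ?_, ?_⟩
  · intro p hp
    rw [hW, Finset.mem_filter] at hp
    obtain ⟨-, h1, h2, h3, h4, h5, h6⟩ := hp
    exact ⟨h3, h4, h6⟩
  · rw [← hw]
    refine le_trans ?_ hsum
    exact_mod_cast hle

private theorem arith2 (r0 H K L t r s C : ℝ) (hr0 : 0 ≤ r0) (hH : 1 ≤ H) (hK : H ≤ K) (hL : 0 < L)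
    (hL1 : L ≤ 1) (ht : L * t = 1) (hT : t ^ 4 ≤ 5152 * H) (hr : r * K = r0 * H) (hr1 : 0 ≤ r)
    (hs : 1 ≤ s) (hC : 0 ≤ C) :
    (C * (H * K * L ^ 3) * s + 6 * (L * K)) *
      ((r * L ^ 3 + 1) * (r * L + 1) * (r * t + 1) * (r * t ^ 3 + 1)) ≤
      (C + 6) * (r0 ^ 2 + 2) ^ 2 * (1 + 5155 * r0 + 5152 * r0 ^ 2) * (s * (H * K + H ^ 3)) := by
  have ht0 : 0 < t := by
    by_contra h
    push Not at h
    nlinarith
  have ht1 : 1 ≤ t := by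
    by_contra h
    push Not at h
    nlinarith
  have hK0 : 0 < K := by linarith
  have hH0 : 0 < H := by linarith
  have hrr : r ≤ r0 := by
    have h1 : r * H ≤ r0 * H := by
      calc r * H ≤ r * K := by gcongr
        _ = r0 * H := hr
    exact le_of_mul_le_mul_right h1 hH0
  have ht2 : t ^ 2 ≤ 5152 * H := (pow_le_pow_right₀ ht1 (by norm_num)).trans hT
  have ht3 : t ^ 3 ≤ 5152 * H := (pow_le_pow_right₀ ht1 (by norm_num)).trans hT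
  have htT : t ≤ 5152 * H := by
    have := (pow_le_pow_right₀ ht1 (show 1 ≤ 4 by norm_num)).trans hT
    simpa using this
  have ht4 : t ≤ t ^ 3 := by
    have := pow_le_pow_right₀ ht1 (show 1 ≤ 3 by norm_num)
    simpa using this
  have hL3 : L ^ 3 ≤ t ^ 3 := pow_le_pow_left₀ hL.le (hL1.trans ht1) 3
  have hLt : L ≤ t := hL1.trans ht1
  obtain ⟨w, hw⟩ : ∃ w, w = (r * L ^ 3 + 1) * (r * L + 1) * (r * t + 1) * (r * t ^ 3 + 1) :=
    ⟨_, rfl⟩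
  have e1 : w = (r ^ 2 + r * (L ^ 3 + t ^ 3) + 1) * (r ^ 2 + r * (L + t) + 1) := by
    have e2 : (r * L ^ 3 + 1) * (r * t ^ 3 + 1) = r ^ 2 * (L * t) ^ 3 + r * (L ^ 3 + t ^ 3) + 1 := by
      ring
    have e3 : (r * L + 1) * (r * t + 1) = r ^ 2 * (L * t) + r * (L + t) + 1 := by ring
    calc w = ((r * L ^ 3 + 1) * (r * t ^ 3 + 1)) * ((r * L + 1) * (r * t + 1)) := by rw [hw]; ring
      _ = _ := by rw [e2, e3, ht]; ring
  have hr2 : r ^ 2 ≤ r0 ^ 2 := by gcongr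
  have e2 : w ≤ ((r0 ^ 2 + 2) * (1 + r * t ^ 3)) * ((r0 ^ 2 + 2) * (1 + r * t)) := by
    rw [e1]
    have q1 : r * (L ^ 3 + t ^ 3) ≤ r * (t ^ 3 + t ^ 3) := by gcongr
    have q2 : r * (L + t) ≤ r * (t + t) := by gcongr
    have q3 : 0 ≤ r0 ^ 2 * (r * t ^ 3) := by positivity
    have q4 : 0 ≤ r0 ^ 2 * (r * t) := by positivity
    apply mul_le_mul
    · linarith
    · linarith
    · positivity
    · positivity
  have hX0 : 0 ≤ C * (H * K * L ^ 3) * s + 6 * (L * K) := by positivity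
  -- the two sums
  have s1 : (H * K * L ^ 3) * ((1 + r * t ^ 3) * (1 + r * t)) ≤
      (1 + 5155 * r0 + 5152 * r0 ^ 2) * (H * K + H ^ 3) := by
    have e3 : (H * K * L ^ 3) * ((1 + r * t ^ 3) * (1 + r * t)) =
        H * K * L ^ 3 + H * (r * K) * (L * t) ^ 3 + H * (r * K) * (L ^ 2 * (L * t)) +
          H * (r * K) * (r * t) * (L * t) ^ 3 := by ring
    rw [e3, ht, hr]
    have hL3' : L ^ 3 ≤ 1 := pow_le_one₀ hL.le hL1
    have hL2' : L ^ 2 ≤ 1 := pow_le_one₀ hL.le hL1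
    have k1 : H * K * L ^ 3 ≤ H * K * 1 := by gcongr
    have k2 : H * (r0 * H) * (L ^ 2 * 1) ≤ H * (r0 * H) * (1 * 1) := by gcongr
    have k3 : H * (r0 * H) * (r * t) * 1 ^ 3 ≤ H * (r0 * H) * (r0 * (5152 * H)) * 1 ^ 3 := by
      gcongr
    have k4 : r0 * H ^ 2 ≤ r0 * H ^ 3 := by
      have : H ^ 2 ≤ H ^ 3 := pow_le_pow_right₀ hH (by norm_num)
      gcongr
    have k5 : 0 ≤ r0 * (H * K) := by positivity
    have k6 : 0 ≤ r0 ^ 2 * (H * K) := by positivity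
    have k7 : 0 ≤ H ^ 3 := by positivity
    have k8 : 0 ≤ r0 * H ^ 3 := by positivity
    nlinarith
  have s2 : (L * K) * ((1 + r * t ^ 3) * (1 + r * t)) ≤
      (1 + 5155 * r0 + 5152 * r0 ^ 2) * (H * K + H ^ 3) := by
    have e3 : (L * K) * ((1 + r * t ^ 3) * (1 + r * t)) =
        L * K + (r * K) * (t ^ 2 * (L * t)) + (r * K) * (L * t) +
          (r * K) * (r * (t ^ 3 * (L * t))) := by ring
    rw [e3, ht, hr]
    have k1 : L * K ≤ H * K := by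
      have : L ≤ H := hL1.trans hH
      gcongr
    have k2 : r0 * H * (t ^ 2 * 1) ≤ r0 * H * ((5152 * H) * 1) := by gcongr
    have k3 : r0 * H * (r * (t ^ 3 * 1)) ≤ r0 * H * (r0 * ((5152 * H) * 1)) := by gcongr
    have k4 : r0 * H ^ 2 ≤ r0 * H ^ 3 := by
      have : H ^ 2 ≤ H ^ 3 := pow_le_pow_right₀ hH (by norm_num)
      gcongr
    have k4' : r0 ^ 2 * H ^ 2 ≤ r0 ^ 2 * H ^ 3 := by
      have : H ^ 2 ≤ H ^ 3 := pow_le_pow_right₀ hH (by norm_num)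
      gcongr
    have k4'' : r0 * H ≤ r0 * H ^ 3 := by
      have h1 := pow_le_pow_right₀ hH (show 1 ≤ 3 by norm_num)
      have : H ≤ H ^ 3 := by simpa using h1
      gcongr
    have k5 : 0 ≤ r0 * (H * K) := by positivity
    have k6 : 0 ≤ r0 ^ 2 * (H * K) := by positivity
    have k7 : 0 ≤ H ^ 3 := by positivity
    have k8 : 0 ≤ r0 * H ^ 3 := by positivity
    nlinarith
  obtain ⟨B, hB⟩ : ∃ B, B = (1 + 5155 * r0 + 5152 * r0 ^ 2) * (H * K + H ^ 3) := ⟨_, rfl⟩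
  rw [← hB] at s1 s2
  have hB0 : 0 ≤ B := by rw [hB]; positivity
  rw [← hw]
  calc (C * (H * K * L ^ 3) * s + 6 * (L * K)) * w ≤ (C * (H * K * L ^ 3) * s + 6 * (L * K)) *
        (((r0 ^ 2 + 2) * (1 + r * t ^ 3)) * ((r0 ^ 2 + 2) * (1 + r * t))) := by gcongr
    _ = (r0 ^ 2 + 2) ^ 2 * (C * s * ((H * K * L ^ 3) * ((1 + r * t ^ 3) * (1 + r * t))) +
        6 * ((L * K) * ((1 + r * t ^ 3) * (1 + r * t)))) := by ring
    _ ≤ (r0 ^ 2 + 2) ^ 2 * (C * s * B + 6 * B) := by gcongr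
    _ ≤ (r0 ^ 2 + 2) ^ 2 * (C * s * B + 6 * (s * B)) := by
        have : B ≤ s * B := le_mul_of_one_le_left hB0 hs
        gcongr
    _ = (C + 6) * (r0 ^ 2 + 2) ^ 2 * (1 + 5155 * r0 + 5152 * r0 ^ 2) *
        (s * (H * K + H ^ 3)) := by rw [hB]; ring

/-- The number of forms in a dyadic piece, for large `K`. -/
theorem dy_count2 (θ : ℝ) (hθ : 0 < θ) (hθ1 : θ ≤ 1 / 3) : ∃ C : ℝ, 0 ≤ C ∧ ∀ H K L : ℝ, 1 ≤ H →
    1 ≤ K → 0 < L → L ≤ 1 →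
    (Dy H K L).Finite ∧ ((Dy H K L).ncard : ℝ) ≤ C * (H ^ 4 + (H * K) ^ (1 + θ)) := by
  obtain ⟨C1, hC1, h1⟩ := dy_count
  obtain ⟨C2, hC2, h2⟩ := pairs_div θ hθ
  obtain ⟨r0, hr0d⟩ : ∃ r0 : ℝ, r0 = 2 * (4260880 * (12 * 82432)) := ⟨_, rfl⟩
  have hr0 : 0 ≤ r0 := by rw [hr0d]; norm_num
  obtain ⟨C3, hC3⟩ : ∃ C3, C3 = (C2 + 6) * (r0 ^ 2 + 2) ^ 2 * (1 + 5155 * r0 + 5152 * r0 ^ 2) :=
    ⟨_, rfl⟩
  have hC30 : 0 ≤ C3 := by rw [hC3]; positivity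
  refine ⟨2 * C1 + 2 * C3, by positivity, fun H K L hH hK hL hL1 => ?_⟩
  obtain ⟨hfin, hn⟩ := h1 H K L hH hK hL hL1
  refine ⟨hfin, ?_⟩
  have hH0 : 0 < H := by linarith
  have hK0 : 0 < K := by linarith
  have hHK : 1 ≤ H * K := by nlinarith
  have hp0 : 0 ≤ (H * K) ^ (1 + θ) := by positivity
  rcases le_or_gt K H with hKH | hKH
  · have h3 : K ^ 2 ≤ H ^ 4 := by
      calc K ^ 2 ≤ H ^ 2 := by gcongr
        _ ≤ H ^ 4 := pow_le_pow_right₀ hH (by norm_num)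
    calc ((Dy H K L).ncard : ℝ) ≤ C1 * (H ^ 4 + K ^ 2) := hn
      _ ≤ C1 * (2 * H ^ 4) := by
          apply mul_le_mul_of_nonneg_left _ hC1
          linarith
      _ ≤ (2 * C1 + 2 * C3) * (H ^ 4 + (H * K) ^ (1 + θ)) := by
          have k1 : 0 ≤ C3 * H ^ 4 := by positivity
          have k2 : 0 ≤ C3 * (H * K) ^ (1 + θ) := by positivity
          have k3 : 0 ≤ C1 * (H * K) ^ (1 + θ) := by positivity
          nlinarith
  · rcases Set.eq_empty_or_nonempty (Dy H K L) with h0 | hne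
    · rw [h0, Set.ncard_empty]
      push_cast
      positivity
    obtain ⟨t, r, W, g1, g2, g3, g4, g5, g6, g7, g8⟩ := dy_cover H K L r0 hr0d hH hK hL hne
    have hW := h2 H K L hH hK hL hL1 g3 g4 W g7
    obtain ⟨s, hs⟩ : ∃ s, s = (H * K) ^ θ := ⟨_, rfl⟩
    have hs1 : 1 ≤ s := by rw [hs]; exact Real.one_le_rpow hHK hθ.le
    rw [← hs] at hW
    have har := arith2 r0 H K L t r s C2 hr0 hH hKH.le hL hL1 g1 g2 g5 g6 hs1 hC2
    have ht0 : 0 < t := by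
      by_contra h
      push Not at h
      nlinarith
    rw [← hC3] at har
    have hsK : s * (H * K) = (H * K) ^ (1 + θ) := by
      rw [hs, Real.rpow_add (by positivity), Real.rpow_one, mul_comm]
    have hs3 : s * H ^ 3 ≤ H ^ 4 + (H * K) ^ (1 + θ) := by
      rcases le_or_gt (H * K) (H ^ 3) with h | h
      · have h5 : s ≤ H := by
          calc s = (H * K) ^ θ := hs
            _ ≤ (H ^ 3) ^ θ := Real.rpow_le_rpow (by positivity) h hθ.le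
            _ = H ^ (3 * θ) := by
              rw [← Real.rpow_natCast, ← Real.rpow_mul hH0.le]
              norm_num
            _ ≤ H ^ (1 : ℝ) := Real.rpow_le_rpow_of_exponent_le hH (by linarith)
            _ = H := Real.rpow_one H
        have h6 : s * H ^ 3 ≤ H * H ^ 3 := by gcongr
        have h7 : H * H ^ 3 = H ^ 4 := by ring
        linarith
      · have h6 : s * H ^ 3 ≤ s * (H * K) := by gcongr
        rw [hsK] at h6
        have h7 : 0 ≤ H ^ 4 := by positivity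
        linarith
    calc ((Dy H K L).ncard : ℝ) ≤
        W.card * ((r * L ^ 3 + 1) * (r * L + 1) * (r * t + 1) * (r * t ^ 3 + 1)) := g8
      _ ≤ (C2 * (H * K * L ^ 3) * s + 6 * (L * K)) *
          ((r * L ^ 3 + 1) * (r * L + 1) * (r * t + 1) * (r * t ^ 3 + 1)) := by gcongr
      _ ≤ C3 * (s * (H * K + H ^ 3)) := har
      _ = C3 * (s * (H * K) + s * H ^ 3) := by ring
      _ ≤ C3 * ((H * K) ^ (1 + θ) + (H ^ 4 + (H * K) ^ (1 + θ))) := by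
          rw [hsK]
          gcongr
      _ ≤ (2 * C1 + 2 * C3) * (H ^ 4 + (H * K) ^ (1 + θ)) := by
          have k1 : 0 ≤ C1 * H ^ 4 := by positivity
          have k2 : 0 ≤ C1 * (H * K) ^ (1 + θ) := by positivity
          have k3 : 0 ≤ C3 * H ^ 4 := by positivity
          nlinarith

end HT55
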