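import Pool.Agent.LibHT55.R4
import Pool.Agent.LibHT55.R7

set_option autoImplicit false

namespace HT55

private theorem log_pow_two {n : ℕ} {x : ℝ} (hx : (2 : ℝ) ^ n ≤ x) : (n : ℝ) ≤ 2 * Real.log x := by
  have h1 : Real.log ((2 : ℝ) ^ n) ≤ Real.log x := Real.log_le_log (by positivity) hx
  rw [Real.log_pow] at h1
  have h2 : (1 : ℝ) / 2 ≤ Real.log 2 := by
    have := Real.log_two_gt_d9
    linarith
  have h3 : (n : ℝ) * (1 / 2) ≤ n * Real.log 2 := by gcongr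
  linarith

theorem all_count2 (θ : ℝ) (hθ : 0 < θ) (hθ1 : θ ≤ 1 / 3) : ∃ C : ℝ, 0 ≤ C ∧
    ∀ H M : ℝ, 1 ≤ H → 1 ≤ M →
    ((AllF H M).ncard : ℝ) ≤
      C * ((1 + Real.log H) * (1 + Real.log M) * (H ^ 4 + (H * M) ^ (1 + θ))) := by
  classical
  obtain ⟨C, hC, hdy⟩ := dy_count2 θ hθ hθ1
  have hl5 : 0 ≤ Real.log 5152 := Real.log_nonneg (by norm_num)
  obtain ⟨c1, hc1d⟩ : ∃ c1 : ℝ, c1 = 3 + 2 * Real.log 5152 := ⟨_, rfl⟩
  have hc1 : 0 ≤ c1 := by rw [hc1d]; positivity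
  refine ⟨8 * c1 * C, by positivity, fun H M hH hM => ?_⟩
  have hH0 : 0 < H := by linarith
  have hM0 : 0 < M := by linarith
  have hlH : 0 ≤ Real.log H := Real.log_nonneg hH
  have hlM : 0 ≤ Real.log M := Real.log_nonneg hM
  obtain ⟨n0, hn1, hn2⟩ := exists_nat_pow_near (show (1 : ℝ) ≤ 5152 * H by linarith)
    (show (1 : ℝ) < 2 by norm_num)
  obtain ⟨m0, hm1, hm2⟩ := exists_nat_pow_near hM (show (1 : ℝ) < 2 by norm_num)
  set W : Finset (ℕ × ℕ) := Finset.range (n0 + 1) ×ˢ Finset.range (m0 + 1) with hW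
  have hsub : AllF H M ⊆ ⋃ p ∈ W, Dy H (2 ^ (p.2 + 1)) ((1 / 2) ^ p.1) := by
    rintro F ⟨lam, κ, hl0, hl1, hk1, hk2, hbox, hrep⟩
    have hlam : 1 ≤ 1 / lam := by rw [le_div_iff₀ hl0]; linarith
    obtain ⟨i, hi1, hi2⟩ := exists_nat_pow_near hlam (show (1 : ℝ) < 2 by norm_num)
    obtain ⟨j, hj1, hj2⟩ := exists_nat_pow_near hk1.le (show (1 : ℝ) < 2 by norm_num)
    have h1 : 1 / lam ≤ 5152 * H := by
      have h2 : (1 : ℝ) ≤ |(F.1.1 : ℝ)| := by
        have := Int.one_le_abs hbox.1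
        exact_mod_cast this
      have h3 : lam ^ 4 ≤ lam := by
        have := pow_le_pow_of_le_one hl0.le hl1 (show 1 ≤ 4 by norm_num)
        simpa using this
      have h4 : 5152 * H * lam ^ 4 ≤ 5152 * H * lam := by gcongr
      rw [div_le_iff₀ hl0]
      linarith [hbox.2.1]
    rw [Set.mem_iUnion₂]
    refine ⟨(i, j), ?_, lam, κ, ?_, ?_, ?_, ?_, hbox, hrep⟩
    · rw [hW, Finset.mem_product, Finset.mem_range, Finset.mem_range]
      constructor
      · exact (pow_lt_pow_iff_right₀ (show (1 : ℝ) < 2 by norm_num)).1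
          (lt_of_le_of_lt (hi1.trans h1) hn2)
      · exact (pow_lt_pow_iff_right₀ (show (1 : ℝ) < 2 by norm_num)).1
          (lt_of_le_of_lt (hj1.trans hk2) hm2)
    · have h4 : (0 : ℝ) < 2 ^ (i + 1) := by positivity
      rw [div_lt_iff₀ hl0] at hi2
      show (1 / 2 : ℝ) ^ i / 2 < lam
      rw [one_div, inv_pow, div_lt_iff₀ (by norm_num : (0 : ℝ) < 2), inv_lt_iff_one_lt_mul₀
        (by positivity)]
      calc (1 : ℝ) < 2 ^ (i + 1) * lam := hi2
        _ = lam * 2 * 2 ^ i := by ring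
    · show lam ≤ (1 / 2 : ℝ) ^ i
      rw [le_div_iff₀ hl0] at hi1
      rw [one_div, inv_pow, le_inv_comm₀ hl0 (by positivity)]
      rw [le_inv_comm₀ (by positivity) hl0]
      rw [← one_div, le_div_iff₀ (by positivity)]
      linarith
    · show (2 : ℝ) ^ (j + 1) / 2 ≤ κ
      rw [pow_succ]
      linarith
    · exact hj2.le
  have hpiece : ∀ p ∈ W, (Dy H (2 ^ (p.2 + 1)) ((1 / 2) ^ p.1)).Finite ∧
      ((Dy H (2 ^ (p.2 + 1)) ((1 / 2) ^ p.1)).ncard : ℝ) ≤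
        C * (4 * (H ^ 4 + (H * M) ^ (1 + θ))) := by
    intro p hp
    rw [hW, Finset.mem_product, Finset.mem_range, Finset.mem_range] at hp
    obtain ⟨h0, h1⟩ := hdy H (2 ^ (p.2 + 1)) ((1 / 2) ^ p.1) hH (one_le_pow₀ (by norm_num))
      (by positivity) (pow_le_one₀ (by norm_num) (by norm_num))
    refine ⟨h0, h1.trans ?_⟩
    have h2 : (2 : ℝ) ^ (p.2 + 1) ≤ 2 * M := by
      have h3 : (2 : ℝ) ^ p.2 ≤ 2 ^ m0 := pow_le_pow_right₀ (by norm_num) (by omega)
      rw [pow_succ]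
      linarith
    have h3 : (H * 2 ^ (p.2 + 1)) ^ (1 + θ) ≤ 4 * (H * M) ^ (1 + θ) := by
      calc (H * 2 ^ (p.2 + 1)) ^ (1 + θ) ≤ (2 * (H * M)) ^ (1 + θ) := by
            apply Real.rpow_le_rpow (by positivity) _ (by linarith)
            calc H * 2 ^ (p.2 + 1) ≤ H * (2 * M) := by gcongr
              _ = 2 * (H * M) := by ring
        _ = 2 ^ (1 + θ) * (H * M) ^ (1 + θ) := Real.mul_rpow (by norm_num) (by positivity)
        _ ≤ 4 * (H * M) ^ (1 + θ) := by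
            have h4 : (2 : ℝ) ^ (1 + θ) ≤ 2 ^ (2 : ℝ) :=
              Real.rpow_le_rpow_of_exponent_le (by norm_num) (by linarith)
            have h5 : (2 : ℝ) ^ (2 : ℝ) = 4 := by norm_num
            rw [h5] at h4
            gcongr
    have h6 : 0 ≤ H ^ 4 := by positivity
    apply mul_le_mul_of_nonneg_left _ hC
    linarith
  have hfin : (⋃ p ∈ W, Dy H (2 ^ (p.2 + 1)) ((1 / 2) ^ p.1)).Finite :=
    Set.Finite.biUnion (Finset.finite_toSet W) fun p hp => (hpiece p hp).1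
  have hn0 : ((n0 + 1 : ℕ) : ℝ) ≤ c1 * (1 + Real.log H) := by
    have h1 := log_pow_two hn1
    rw [Real.log_mul (by norm_num) hH0.ne'] at h1
    push_cast
    rw [hc1d]
    have h2 : 0 ≤ Real.log 5152 * Real.log H := by positivity
    nlinarith
  have hm0 : ((m0 + 1 : ℕ) : ℝ) ≤ 2 * (1 + Real.log M) := by
    have h1 := log_pow_two hm1
    push_cast
    linarith
  obtain ⟨B, hB⟩ : ∃ B, B = H ^ 4 + (H * M) ^ (1 + θ) := ⟨_, rfl⟩
  have hB0 : 0 ≤ B := by rw [hB]; positivity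
  rw [← hB] at hpiece ⊢
  have hsum : ((⋃ p ∈ W, Dy H (2 ^ (p.2 + 1)) ((1 / 2) ^ p.1)).ncard : ℝ) ≤
      (((n0 + 1 : ℕ) : ℝ) * ((m0 + 1 : ℕ) : ℝ)) * (C * (4 * B)) := by
    have h1 := Finset.set_ncard_biUnion_le W (fun p => Dy H (2 ^ (p.2 + 1)) ((1 / 2) ^ p.1))
    have hWc : (W.card : ℝ) = ((n0 + 1 : ℕ) : ℝ) * ((m0 + 1 : ℕ) : ℝ) := by
      rw [hW, Finset.card_product, Finset.card_range, Finset.card_range]
      push_cast
      ring
    calc ((⋃ p ∈ W, Dy H (2 ^ (p.2 + 1)) ((1 / 2) ^ p.1)).ncard : ℝ)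
        ≤ ((∑ p ∈ W, (Dy H (2 ^ (p.2 + 1)) ((1 / 2) ^ p.1)).ncard : ℕ) : ℝ) := by
          exact_mod_cast h1
      _ = ∑ p ∈ W, ((Dy H (2 ^ (p.2 + 1)) ((1 / 2) ^ p.1)).ncard : ℝ) := by
          push_cast
          rfl
      _ ≤ ∑ _p ∈ W, C * (4 * B) := Finset.sum_le_sum fun p hp => (hpiece p hp).2
      _ = W.card * (C * (4 * B)) := by rw [Finset.sum_const, nsmul_eq_mul]
      _ = _ := by rw [hWc]
  have hle := Set.ncard_le_ncard hsub hfin
  calc ((AllF H M).ncard : ℝ) ≤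
      ((⋃ p ∈ W, Dy H (2 ^ (p.2 + 1)) ((1 / 2) ^ p.1)).ncard : ℝ) := by exact_mod_cast hle
    _ ≤ _ := hsum
    _ ≤ ((c1 * (1 + Real.log H)) * (2 * (1 + Real.log M))) * (C * (4 * B)) := by
        gcongr
    _ = 8 * c1 * C * ((1 + Real.log H) * (1 + Real.log M) * B) := by ring

/-- `log x ≤ x^ε/ε` in the form used here -/
private theorem log_bd (ε : ℝ) (hε : 0 < ε) {x : ℝ} (hx : 1 ≤ x) :
    1 + Real.log x ≤ (1 + 1 / ε) * x ^ ε := by
  have h1 := Real.log_le_rpow_div (by linarith : 0 ≤ x) hε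
  have h2 : 1 ≤ x ^ ε := Real.one_le_rpow hx hε.le
  have h3 : x ^ ε / ε = 1 / ε * x ^ ε := by ring
  rw [h3] at h1
  linarith

/-- The number of reduced forms. -/
theorem all_count3 (θ : ℝ) (hθ : 0 < θ) (hθ1 : θ ≤ 1) : ∃ C : ℝ, 0 ≤ C ∧
    ∀ H M : ℝ, 1 ≤ H → 1 ≤ M →
    ((AllF H M).ncard : ℝ) ≤ C * (H ^ (9 / 2 : ℝ) + (H * M) ^ (1 + θ)) := by
  obtain ⟨C, hC, hall⟩ := all_count2 (θ / 3) (by positivity) (by linarith)
  obtain ⟨b, hb⟩ : ∃ b : ℝ, b = 1 + 1 / (θ / 3) := ⟨_, rfl⟩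
  obtain ⟨b', hb'⟩ : ∃ b' : ℝ, b' = 1 + 1 / (1 / 20) := ⟨_, rfl⟩
  have hb0 : 0 ≤ b := by rw [hb]; positivity
  have hb0' : 0 ≤ b' := by rw [hb']; norm_num
  refine ⟨C * (b' * (4 * b') + b * b + b * b), by positivity, fun H M hH hM => ?_⟩
  have hH0 : 0 < H := by linarith
  have hM0 : 0 < M := by linarith
  have hHM : 1 ≤ H * M := by nlinarith
  have hlH : 0 ≤ Real.log H := Real.log_nonneg hH
  have hlM : 0 ≤ Real.log M := Real.log_nonneg hM
  have h1 := hall H M hH hM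
  obtain ⟨Z, hZ⟩ : ∃ Z, Z = (H * M) ^ (1 + θ) := ⟨_, rfl⟩
  have hZ0 : 0 ≤ Z := by rw [hZ]; positivity
  have hP0 : 0 ≤ H ^ (9 / 2 : ℝ) := by positivity
  -- the second term
  have k0 : (1 + Real.log H) * (1 + Real.log M) ≤ b * b * (H * M) ^ (θ / 3 * 2) := by
    have e1 := log_bd (θ / 3) (by positivity) hH
    have e2 := log_bd (θ / 3) (by positivity) hM
    rw [← hb] at e1 e2
    have e3 : H ^ (θ / 3) ≤ (H * M) ^ (θ / 3) :=
      Real.rpow_le_rpow hH0.le (le_mul_of_one_le_right hH0.le hM) (by positivity)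
    have e4 : M ^ (θ / 3) ≤ (H * M) ^ (θ / 3) :=
      Real.rpow_le_rpow hM0.le (le_mul_of_one_le_left hM0.le hH) (by positivity)
    calc (1 + Real.log H) * (1 + Real.log M) ≤
        (b * (H * M) ^ (θ / 3)) * (b * (H * M) ^ (θ / 3)) := by
          apply mul_le_mul (e1.trans (by gcongr)) (e2.trans (by gcongr)) (by positivity)
            (by positivity)
      _ = b * b * ((H * M) ^ (θ / 3) * (H * M) ^ (θ / 3)) := by ring
      _ = b * b * (H * M) ^ (θ / 3 * 2) := by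
          rw [← Real.rpow_add (by positivity)]
          congr 2
          ring
  have k1 : (1 + Real.log H) * (1 + Real.log M) * (H * M) ^ (1 + θ / 3) ≤ b * b * Z := by
    calc (1 + Real.log H) * (1 + Real.log M) * (H * M) ^ (1 + θ / 3) ≤
        (b * b * (H * M) ^ (θ / 3 * 2)) * (H * M) ^ (1 + θ / 3) := by gcongr
      _ = b * b * ((H * M) ^ (θ / 3 * 2) * (H * M) ^ (1 + θ / 3)) := by ring
      _ = b * b * Z := by
          rw [hZ, ← Real.rpow_add (by positivity)]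
          congr 2
          ring
  -- the first term
  have k2 : (1 + Real.log H) * (1 + Real.log M) * H ^ 4 ≤
      b' * (4 * b') * H ^ (9 / 2 : ℝ) + b * b * Z := by
    rcases le_or_gt M (H ^ 4) with h | h
    · have e1 := log_bd (1 / 20) (by positivity) hH
      rw [← hb'] at e1
      have e2 : 1 + Real.log M ≤ 4 * (1 + Real.log H) := by
        have e3 : Real.log M ≤ Real.log (H ^ 4) := Real.log_le_log hM0 h
        rw [Real.log_pow] at e3
        push_cast at e3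
        linarith
      calc (1 + Real.log H) * (1 + Real.log M) * H ^ 4 ≤
          (b' * H ^ (1 / 20 : ℝ)) * (4 * (b' * H ^ (1 / 20 : ℝ))) * H ^ 4 := by
            have e3 : 1 + Real.log M ≤ 4 * (b' * H ^ (1 / 20 : ℝ)) := by linarith
            gcongr
        _ = b' * (4 * b') * (H ^ (1 / 20 : ℝ) * H ^ (1 / 20 : ℝ) * H ^ 4) := by ring
        _ = b' * (4 * b') * H ^ (41 / 10 : ℝ) := by
            rw [← Real.rpow_natCast, ← Real.rpow_add hH0, ← Real.rpow_add hH0]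
            congr 2
            norm_num
        _ ≤ b' * (4 * b') * H ^ (9 / 2 : ℝ) := by
            have : H ^ (41 / 10 : ℝ) ≤ H ^ (9 / 2 : ℝ) :=
              Real.rpow_le_rpow_of_exponent_le hH (by norm_num)
            gcongr
        _ ≤ b' * (4 * b') * H ^ (9 / 2 : ℝ) + b * b * Z := by
            have : 0 ≤ b * b * Z := by positivity
            linarith
    · have e1 : H ^ 4 ≤ (H * M) ^ (1 + θ / 3) := by
        calc H ^ 4 ≤ M := h.le
          _ ≤ H * M := le_mul_of_one_le_left hM0.le hH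
          _ = (H * M) ^ (1 : ℝ) := (Real.rpow_one _).symm
          _ ≤ (H * M) ^ (1 + θ / 3) :=
            Real.rpow_le_rpow_of_exponent_le hHM (by linarith)
      calc (1 + Real.log H) * (1 + Real.log M) * H ^ 4 ≤
          (1 + Real.log H) * (1 + Real.log M) * (H * M) ^ (1 + θ / 3) := by gcongr
        _ ≤ b * b * Z := k1
        _ ≤ b' * (4 * b') * H ^ (9 / 2 : ℝ) + b * b * Z := by
            have : 0 ≤ b' * (4 * b') * H ^ (9 / 2 : ℝ) := by positivity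
            linarith
  calc ((AllF H M).ncard : ℝ) ≤
      C * ((1 + Real.log H) * (1 + Real.log M) * (H ^ 4 + (H * M) ^ (1 + θ / 3))) := h1
    _ = C * ((1 + Real.log H) * (1 + Real.log M) * H ^ 4 +
        (1 + Real.log H) * (1 + Real.log M) * (H * M) ^ (1 + θ / 3)) := by ring
    _ ≤ C * ((b' * (4 * b') * H ^ (9 / 2 : ℝ) + b * b * Z) + b * b * Z) := by gcongr
    _ ≤ C * (b' * (4 * b') + b * b + b * b) * (H ^ (9 / 2 : ℝ) + Z) := by
        have q1 : 0 ≤ C * (b' * (4 * b')) * Z := by positivity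
        have q2 : 0 ≤ C * (b * b) * H ^ (9 / 2 : ℝ) := by positivity
        nlinarith
    _ = _ := by rw [hZ]

end HT55
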