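import Pool.Agent.LibHT55.R8
import Pool.Agent.LibHT55.F

set_option autoImplicit false

open Pool.Agent.LibHLP

namespace HT55

/-- the curves with an integral point are covered by the reduced forms and the small points -/
theorem exc_cover {H X W M : ℝ} (hH : 1 ≤ H) (hW : W = √X / H) (hM0 : 0 ≤ M)
    (hM : M ^ 2 = 1 + 4 * W) (hf1 : (AllF H M).Finite)
    (hs1 : {p : ℤ × ℤ | |(p.1 : ℝ)| ≤ H ^ 2 ∧ |(p.2 : ℝ)| ≤ H ^ 3 ∧
      ∃ x y : ℤ, y ^ 2 = x ^ 3 + p.1 * x + p.2 ∧ (x : ℝ) ≤ 16 * H ^ 4}.Finite) :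
    ((Exc H X).ncard : ℝ) ≤ ((AllF H M).ncard : ℝ) +
      ({p : ℤ × ℤ | |(p.1 : ℝ)| ≤ H ^ 2 ∧ |(p.2 : ℝ)| ≤ H ^ 3 ∧
        ∃ x y : ℤ, y ^ 2 = x ^ 3 + p.1 * x + p.2 ∧ (x : ℝ) ≤ 16 * H ^ 4}.ncard : ℝ) := by
  have hH0 : 0 < H := by linarith
  set S2 : Set (ℤ × ℤ) := {p | |(p.1 : ℝ)| ≤ H ^ 2 ∧ |(p.2 : ℝ)| ≤ H ^ 3 ∧
    ∃ x y : ℤ, y ^ 2 = x ^ 3 + p.1 * x + p.2 ∧ (x : ℝ) ≤ 16 * H ^ 4} with hS2
  set φ : (ℤ × ℤ × ℤ × ℤ) × ℤ → ℤ × ℤ := fun F =>
    ((F.1.1 * F.2 - 4 * F.1.2.1 * F.1.2.2.2 + 3 * F.1.2.2.1 ^ 2) / (-4),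
      (F.1.1 * F.1.2.2.1 * F.2 + 2 * F.1.2.1 * F.1.2.2.1 * F.1.2.2.2
        - F.1.1 * F.1.2.2.2 ^ 2 - F.1.2.1 ^ 2 * F.2 - F.1.2.2.1 ^ 3) / (-4)) with hφ
  have hcover : Exc H X ⊆ φ '' (AllF H M) ∪ S2 := by
    rintro ⟨A, B⟩ ⟨hA, hB, hd, x, y, hE, hx⟩
    by_cases hx4 : (x : ℝ) ≤ 16 * H ^ 4
    · exact Or.inr ⟨hA, hB, x, y, hE, hx4⟩
    · left
      push Not at hx4
      have hE' : |y| ^ 2 = x ^ 3 + A * x + B := by rw [sq_abs]; exact hE
      obtain ⟨lam, κ, a, b, c, d, e, hl0, hl1, hk1, hkx, hbox, hrep, hI, hJ⟩ :=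
        reduction' x |y| A B H hH hx4 (abs_nonneg y) hA hB hd hE'
      have hkM : κ ≤ M := by
        have h1 : √(x : ℝ) ≤ √X := Real.sqrt_le_sqrt ((le_abs_self _).trans hx)
        have h2 : κ ^ 2 * H ≤ M ^ 2 * H := by
          rw [hkx, hM, hW]
          calc 4 * √(x : ℝ) ≤ 4 * √X := by linarith
            _ = 4 * (√X / H) * H := by field_simp
            _ ≤ (1 + 4 * (√X / H)) * H := by gcongr; linarith
        have h3 : κ ^ 2 ≤ M ^ 2 := le_of_mul_le_mul_right h2 hH0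
        exact le_of_pow_le_pow_left₀ (by norm_num) hM0 h3
      refine ⟨((a, b, c, d), e), ⟨lam, κ, hl0, hl1, hk1, hkM, hbox, hrep⟩, ?_⟩
      simp only [hφ, Prod.mk.injEq]
      constructor
      · rw [hI]
        omega
      · rw [hJ]
        omega
  have h2 := Set.ncard_le_ncard hcover ((hf1.image φ).union hs1)
  have h3 := Set.ncard_union_le (φ '' (AllF H M)) S2
  have h4 : (φ '' (AllF H M)).ncard ≤ (AllF H M).ncard := Set.ncard_image_le hf1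
  have h5 := h2.trans (h3.trans (Nat.add_le_add_right h4 _))
  exact_mod_cast h5

/-- **Upper bound**: `N(H, X) ≤ K (H^(9/2) + (H √X)^(1/2+θ))`, with a power saving for
`X ≤ H^(18 - δ)`. -/
theorem up16 (θ : ℝ) (hθ : 0 < θ) (hθ1 : θ ≤ 1 / 2) : ∃ K : ℝ, 0 ≤ K ∧ ∀ H X : ℝ, 1 ≤ H → 0 ≤ X →
    ((Exc H X).ncard : ℝ) ≤ K * (H ^ (9 / 2 : ℝ) + (H * √X) ^ (1 / 2 + θ)) := by
  obtain ⟨C, hC, hall⟩ := all_count3 (2 * θ) (by positivity) (by linarith)
  obtain ⟨C', hC', hall'⟩ := all_count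
  obtain ⟨K2, hK2, hsmall⟩ := small_count'
  obtain ⟨k, hk⟩ : ∃ k : ℝ, k = (5 : ℝ) ^ (1 / 2 + θ) := ⟨_, rfl⟩
  have hk0 : 0 ≤ k := by rw [hk]; positivity
  refine ⟨C + C * k + K2, by positivity, fun H X hH hX => ?_⟩
  have hH0 : 0 < H := by linarith
  obtain ⟨W, hW⟩ : ∃ W, W = √X / H := ⟨_, rfl⟩
  have hW0 : 0 ≤ W := by rw [hW]; positivity
  obtain ⟨M, hMd⟩ : ∃ M, M = √(1 + 4 * W) := ⟨_, rfl⟩
  have hM : M ^ 2 = 1 + 4 * W := by rw [hMd]; exact Real.sq_sqrt (by positivity)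
  have hM1 : 1 ≤ M := by
    rw [hMd]
    apply Real.one_le_sqrt.2
    linarith
  have hM0 : 0 ≤ M := by linarith
  obtain ⟨hf1, -⟩ := hall' H M hH hM1
  have hf2 := hall H M hH hM1
  obtain ⟨hs1, hs2⟩ := hsmall H hH
  have h1 := exc_cover hH hW hM0 hM hf1 hs1
  rw [← rpow_nine_half H hH0] at hs2
  obtain ⟨P, hP⟩ : ∃ P, P = H ^ (9 / 2 : ℝ) := ⟨_, rfl⟩
  have hP0 : 0 ≤ P := by rw [hP]; positivity
  obtain ⟨Z, hZ⟩ : ∃ Z, Z = (H * √X) ^ (1 / 2 + θ) := ⟨_, rfl⟩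
  have hZ0 : 0 ≤ Z := by rw [hZ]; positivity
  rw [← hP] at hs2 hf2
  rw [← hP, ← hZ]
  have h2 : (H * M) ^ (1 + 2 * θ) ≤ k * (P + Z) := by
    have e1 : (H * M) ^ (1 + 2 * θ) = (H ^ 2 + 4 * (H * √X)) ^ (1 / 2 + θ) := by
      have e2 : H ^ 2 + 4 * (H * √X) = (H * M) ^ 2 := by
        rw [mul_pow, hM, hW]
        field_simp
      rw [e2, ← Real.rpow_natCast, ← Real.rpow_mul (by positivity)]
      congr 1
      push_cast
      ring
    rw [e1]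
    rcases le_total H (√X) with h | h
    · calc (H ^ 2 + 4 * (H * √X)) ^ (1 / 2 + θ) ≤ (5 * (H * √X)) ^ (1 / 2 + θ) := by
            apply Real.rpow_le_rpow (by positivity) _ (by positivity)
            have : H ^ 2 ≤ H * √X := by
              rw [sq]
              gcongr
            linarith
        _ = k * Z := by rw [Real.mul_rpow (by norm_num) (by positivity), hk, hZ]
        _ ≤ k * (P + Z) := by
            apply mul_le_mul_of_nonneg_left _ hk0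
            linarith
    · calc (H ^ 2 + 4 * (H * √X)) ^ (1 / 2 + θ) ≤ (5 * H ^ 2) ^ (1 / 2 + θ) := by
            apply Real.rpow_le_rpow (by positivity) _ (by positivity)
            have : H * √X ≤ H ^ 2 := by
              rw [sq]
              gcongr
            linarith
        _ = k * (H ^ 2) ^ (1 / 2 + θ) := by rw [Real.mul_rpow (by norm_num) (by positivity), hk]
        _ = k * H ^ (1 + 2 * θ) := by
            rw [← Real.rpow_natCast, ← Real.rpow_mul hH0.le]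
            congr 2
            push_cast
            ring
        _ ≤ k * P := by
            apply mul_le_mul_of_nonneg_left _ hk0
            rw [hP]
            exact Real.rpow_le_rpow_of_exponent_le hH (by linarith)
        _ ≤ k * (P + Z) := by
            apply mul_le_mul_of_nonneg_left _ hk0
            linarith
  calc ((Exc H X).ncard : ℝ) ≤ _ := h1
    _ ≤ C * (P + (H * M) ^ (1 + 2 * θ)) + K2 * P := add_le_add hf2 hs2
    _ ≤ C * (P + k * (P + Z)) + K2 * P := by gcongr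
    _ ≤ (C + C * k + K2) * (P + Z) := by
        have q1 : 0 ≤ C * Z := by positivity
        have q2 : 0 ≤ K2 * Z := by positivity
        nlinarith

/-- **The exact order**: for every `δ > 0` there are `c, K > 0` with `c H^(9/2) ≤ N(H, X) ≤ K H^(9/2)`
uniformly for `H ≤ X ≤ H^(16 - δ)`. -/
theorem order16 (δ : ℝ) (hδ : 0 < δ) : ∃ c K : ℝ, 0 < c ∧ ∀ H X : ℝ, 1 ≤ H → H ≤ X →
    X ≤ H ^ (16 - δ) →
    c * H ^ (9 / 2 : ℝ) ≤ ((Exc H X).ncard : ℝ) ∧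
      ((Exc H X).ncard : ℝ) ≤ K * H ^ (9 / 2 : ℝ) := by
  obtain ⟨c, hc, hlow⟩ := low
  obtain ⟨d, hd⟩ : ∃ d, d = min δ 1 := ⟨_, rfl⟩
  have hd0 : 0 < d := by rw [hd]; exact lt_min hδ one_pos
  have hd1 : d ≤ 1 := by rw [hd]; exact min_le_right _ _
  have hd2 : d ≤ δ := by rw [hd]; exact min_le_left _ _
  obtain ⟨K, hK, hup⟩ := up16 (d / 36) (by positivity) (by linarith)
  refine ⟨c, 2 * K, hc, fun H X hH hX hX2 => ⟨hlow H X hH hX, ?_⟩⟩
  have hH0 : 0 < H := by linarith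
  have hX0 : 0 < X := by linarith
  have h1 := hup H X hH hX0.le
  have h2 : (H * √X) ^ (1 / 2 + d / 36) ≤ H ^ (9 / 2 : ℝ) := by
    have h3 : √X ≤ H ^ (8 - d / 2) := by
      rw [Real.sqrt_le_left (by positivity), ← Real.rpow_natCast, ← Real.rpow_mul hH0.le]
      refine hX2.trans (Real.rpow_le_rpow_of_exponent_le hH ?_)
      push_cast
      linarith
    have h4 : H * √X ≤ H ^ (9 - d / 2) := by
      calc H * √X ≤ H * H ^ (8 - d / 2) := by gcongr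
        _ = H ^ (1 : ℝ) * H ^ (8 - d / 2) := by rw [Real.rpow_one]
        _ = H ^ (9 - d / 2) := by
            rw [← Real.rpow_add hH0]
            congr 1
            ring
    calc (H * √X) ^ (1 / 2 + d / 36) ≤ (H ^ (9 - d / 2)) ^ (1 / 2 + d / 36) :=
          Real.rpow_le_rpow (by positivity) h4 (by positivity)
      _ = H ^ ((9 - d / 2) * (1 / 2 + d / 36)) := by rw [← Real.rpow_mul hH0.le]
      _ ≤ H ^ (9 / 2 : ℝ) := by
          apply Real.rpow_le_rpow_of_exponent_le hH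
          nlinarith [sq_nonneg d]
  calc ((Exc H X).ncard : ℝ) ≤ K * (H ^ (9 / 2 : ℝ) + (H * √X) ^ (1 / 2 + d / 36)) := h1
    _ ≤ K * (H ^ (9 / 2 : ℝ) + H ^ (9 / 2 : ℝ)) := by gcongr
    _ = 2 * K * H ^ (9 / 2 : ℝ) := by ring

end HT55
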